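import Pool.Agent.N88.TS.Tri

/-! The abstract lemma. -/

set_option autoImplicit false

namespace Pool.Agent.N88.TS

open Pool.Agent.R649.ETS

section
variable {E : Type} [AddCommGroup E] [Finite E]

theorem cnt (X : AddSubgroup E) (U : Set E) (hX : (X : Set E) ⊆ U) (s : Finset (E ⧸ X))
    (h0 : (0 : E ⧸ X) ∉ s) : Nat.card X + ∑ q ∈ s, Nf X U q ≤ U.ncard := by
  classical
  let U' : Finset E := (Set.toFinite U).toFinset
  have hU' : ∀ e, e ∈ U' ↔ e ∈ U := fun e => Set.Finite.mem_toFinset _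
  have hN : ∀ q : E ⧸ X, Nf X U q = ∑ u ∈ U', if (QuotientAddGroup.mk u : E ⧸ X) = q then 1 else 0 := by
    intro q
    rw [← Finset.card_filter, Nf, ← Set.ncard_coe_finset]
    congr 1
    ext e
    simp [hU']
  have hX' : Nat.card X ≤ Nf X U 0 := by
    refine Set.ncard_le_ncard (s := (X : Set E)) ?_ (Set.toFinite _)
    intro e he
    exact ⟨hX he, (QuotientAddGroup.eq_zero_iff e).2 he⟩
  have h1 : ∑ q ∈ insert 0 s, Nf X U q ≤ U.ncard := by
    simp_rw [hN]
    rw [Finset.sum_comm, Set.ncard_eq_toFinset_card U (Set.toFinite U)]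
    show _ ≤ U'.card
    rw [Finset.card_eq_sum_ones]
    refine Finset.sum_le_sum fun u _ => ?_
    rw [Finset.sum_ite_eq]
    split_ifs <;> omega
  rw [Finset.sum_insert h0] at h1
  omega

lemma mem_Im (X A : AddSubgroup E) (e : E) :
    (QuotientAddGroup.mk e : E ⧸ X) ∈ Im X A ↔ e ∈ A ⊔ X := by
  have h := AddSubgroup.comap_map_eq (QuotientAddGroup.mk' X) A
  rw [QuotientAddGroup.ker_mk'] at h
  rw [← h]
  rfl

lemma Im_sup (X A B : AddSubgroup E) : Im X (A ⊔ B) = Im X A ⊔ Im X B := AddSubgroup.map_sup _ _ _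

lemma Im_le {X A B : AddSubgroup E} (h : A ≤ X ⊔ B) : Im X A ≤ Im X B := by
  rintro _ ⟨a, ha, rfl⟩
  have := h ha
  rw [sup_comm] at this
  exact (mem_Im X B a).2 this

lemma card_Im (X A : AddSubgroup E) :
    Nat.card X * Nat.card (Im X A) = Nat.card (X ⊔ A : AddSubgroup E) := by
  let f : (X ⊔ A : AddSubgroup E) →+ E ⧸ X := (QuotientAddGroup.mk' X).comp (X ⊔ A).subtype
  have h1 : f.range = Im X A := by
    apply le_antisymm
    · rintro _ ⟨⟨e, he⟩, rfl⟩
      rw [sup_comm] at he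
      exact (mem_Im X A e).2 he
    · rintro _ ⟨a, ha, rfl⟩
      exact ⟨⟨a, (le_sup_right : A ≤ X ⊔ A) ha⟩, rfl⟩
  have h2 : f.ker = X.addSubgroupOf (X ⊔ A) := by
    ext ⟨e, he⟩
    rw [AddMonoidHom.mem_ker, AddSubgroup.mem_addSubgroupOf]
    exact QuotientAddGroup.eq_zero_iff e
  have h3 : Nat.card f.ker = Nat.card X := by
    rw [h2]
    exact Nat.card_congr (AddSubgroup.addSubgroupOfEquivOfLe le_sup_left).toEquiv
  have h4 := AddSubgroup.card_mul_index f.ker
  rw [AddSubgroup.index_ker, h1, h3] at h4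
  exact h4

structure Cfg {G : Type} [AddCommGroup G] (X : G → AddSubgroup E) (θ : E) (U : Set E) : Prop where
  exE : ∀ e : E, e + e = 0
  exG : ∀ g : G, g + g = 0
  add : ∀ p q, X (p + q) ≤ X p ⊔ X q
  out : ∀ p q, θ ∉ X p ⊔ X q
  sub : ∀ g, (X g : Set E) ⊆ U

variable {G : Type} [AddCommGroup G] {X : G → AddSubgroup E} {θ : E} {U : Set E}

lemma Cfg.pp (c : Cfg X θ U) (p a : G) : p + (p + a) = a := by
  rw [← add_assoc, c.exG, zero_add]

lemma Cfg.pq (c : Cfg X θ U) (p a : G) : a + (p + a) = p := by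
  rw [add_comm p a, c.pp]

lemma Cfg.le1 (c : Cfg X θ U) (p a : G) : X a ≤ X p ⊔ X (p + a) := by
  have := c.add p (p + a)
  rwa [c.pp] at this

lemma Cfg.le2 (c : Cfg X θ U) (p a : G) : X p ≤ X a ⊔ X (p + a) := by
  have := c.add a (p + a)
  rwa [c.pq] at this

lemma Cfg.tri (c : Cfg X θ U) {p a b : G} (h : θ ∈ X p ⊔ X a ⊔ X b) :
    Tri (Im (X p) (X a)) (Im (X p) (X b)) (Im (X p) (X (a + b)))
      (QuotientAddGroup.mk θ : E ⧸ X p) := by
  have o : ∀ g, (QuotientAddGroup.mk θ : E ⧸ X p) ∉ Im (X p) (X g) := by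
    intro g hg
    exact c.out g p ((mem_Im _ _ _).1 hg)
  have i : ∀ g k, X p ⊔ X a ⊔ X b ≤ X g ⊔ X k ⊔ X p →
      (QuotientAddGroup.mk θ : E ⧸ X p) ∈ Im (X p) (X g) ⊔ Im (X p) (X k) := by
    intro g k hgk
    rw [← Im_sup]
    exact (mem_Im _ _ _).2 (hgk h)
  refine ⟨o _, o _, o _, i _ _ ?_, i _ _ ?_, i _ _ ?_⟩
  · exact sup_le (sup_le le_sup_right (le_sup_left.trans le_sup_left))
      (le_sup_right.trans le_sup_left)
  · refine sup_le (sup_le le_sup_right (le_sup_left.trans le_sup_left)) ?_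
    exact (c.le1 a b).trans le_sup_left
  · refine sup_le (sup_le le_sup_right ?_) (le_sup_left.trans le_sup_left)
    have := c.le1 b a
    rw [add_comm b a] at this
    exact this.trans le_sup_left

/-- the line through `p` and `a` -/
lemma Cfg.line (hL : S_LINE) (c : Cfg X θ U) (le8 : ∀ g, Nat.card (X g) ≤ 8) {p : G}
    (hp : Nat.card (X p) = 8) (a : G) :
    (Nat.card (Im (X p) (X a)) = 1 ∨ Nat.card (Im (X p) (X a)) = 2 ∨
      Nat.card (Im (X p) (X a)) = 4 ∨ Nat.card (Im (X p) (X a)) = 8) ∧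
    (Nat.card (Im (X p) (X a)) = 2 → ∀ q ∈ Im (X p) (X a), q ≠ 0 → 4 ≤ Nf (X p) U q ∧
      ((X p ⊓ X a = ⊥ ∨ X p ⊓ X (p + a) = ⊥) → 5 ≤ Nf (X p) U q)) ∧
    (Nat.card (Im (X p) (X a)) = 4 → (∀ q ∈ Im (X p) (X a), q ≠ 0 → 3 ≤ Nf (X p) U q) ∧
      ((∃ a', (a' = a ∨ a' = p + a) ∧ Nat.card (X a') = 4 ∧ Nat.card (X (p + a')) = 8 ∧
        X p ⊓ X a' = ⊥ ∧ Nat.card (X p ⊓ X (p + a') : AddSubgroup E) = 2) ∨
       ∃ q₁ ∈ Im (X p) (X a), ∃ q₂ ∈ Im (X p) (X a), q₁ ≠ 0 ∧ q₂ ≠ 0 ∧ q₁ ≠ q₂ ∧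
        4 ≤ Nf (X p) U q₁ ∧ 4 ≤ Nf (X p) U q₂)) := by
  obtain ⟨h1, h2, h3⟩ := hL E c.exE (X p) (X a) (X (p + a)) U (c.sub _) (c.sub _) (c.sub _)
    (c.le2 p a) (c.le1 p a) (c.add p a) hp (le8 _) (le8 _)
  refine ⟨h1, h2, fun h4 => ⟨(h3 h4).1, ?_⟩⟩
  rcases (h3 h4).2 with ⟨e1, e2, e3, e4⟩ | ⟨e1, e2, e3, e4⟩ | h
  · exact Or.inl ⟨a, Or.inl rfl, e1, e2, e3, e4⟩
  · refine Or.inl ⟨p + a, Or.inr rfl, e1, ?_, e3, ?_⟩
    · rw [c.pp]; exact e2
    · rw [c.pp]; exact e4
  · exact Or.inr h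

lemma Cfg.two (hW : S_LTWO) (c : Cfg X θ U) {p : G} (hle : ∀ g, Nat.card (X g) ≤ Nat.card (X p))
    (a : G) : ∀ q ∈ Im (X p) (X a), q ≠ 0 → 2 ≤ Nf (X p) U q :=
  hW E c.exE (X p) (X a) (X (p + a)) U (c.sub _) (c.sub _) (c.le2 p a) (c.le1 p a) (c.add p a)
    (hle _) (hle _)

lemma Cfg.im_eq (c : Cfg X θ U) {p a a' : G} (h : a' = a ∨ a' = p + a) :
    Im (X p) (X a') = Im (X p) (X a) := by
  rcases h with rfl | rfl
  · rfl
  · exact le_antisymm (Im_le (c.add p a)) (Im_le (c.le1 p a))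

lemma Cfg.tight (hT : S_TIGHT) (c : Cfg X θ U) {p a b a' b' : G} (hp : Nat.card (X p) = 8)
    (ha' : a' = a ∨ a' = p + a) (hb' : b' = b ∨ b' = p + b)
    (ga : Nat.card (X a') = 4 ∧ Nat.card (X (p + a')) = 8 ∧
        X p ⊓ X a' = ⊥ ∧ Nat.card (X p ⊓ X (p + a') : AddSubgroup E) = 2)
    (gb : Nat.card (X b') = 4 ∧ Nat.card (X (p + b')) = 8 ∧
        X p ⊓ X b' = ⊥ ∧ Nat.card (X p ⊓ X (p + b') : AddSubgroup E) = 2)
    (na : Nat.card (Im (X p) (X a)) = 4) (nb : Nat.card (Im (X p) (X b)) = 4)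
    (hi : Nat.card (Im (X p) (X a) ⊓ Im (X p) (X b) : AddSubgroup (E ⧸ X p)) = 2)
    (hq : ∃ q ∈ Im (X p) (X a), q ∈ Im (X p) (X b) ∧ q ≠ 0 ∧ Nf (X p) U q ≤ 3) :
    (X p ⊓ X (a' + b') = ⊥ ∧ Nat.card (X (p + a') ⊔ X (p + b') : AddSubgroup E) ≤ 16) ∨
    (X p ⊓ X (p + (a' + b')) = ⊥ ∧ Nat.card (X (p + a') ⊔ X b' : AddSubgroup E) ≤ 16) := by
  have e1 := c.im_eq (p := p) ha'
  have e2 := c.im_eq (p := p) hb'
  have c1 := card_sup_inf (Im (X p) (X a)) (Im (X p) (X b))
  refine hT E c.exE (X p) (X a') (X (p + a')) (X b') (X (p + b')) (X (a' + b'))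
    (X (p + (a' + b'))) U (c.sub _) (c.sub _) (c.sub _) (c.sub _) (c.le2 p a') (c.le1 p a')
    (c.add p a') (c.le2 p b') (c.le1 p b') (c.add p b') (c.add _ _) ?_ ?_ hp ga.1 ga.2.1 gb.1
    gb.2.1 ga.2.2.1 ga.2.2.2 gb.2.2.1 gb.2.2.2 ?_ ?_
  · have := c.add a' (p + b')
    rwa [add_left_comm] at this
  · have := c.add (p + a') b'
    rwa [add_assoc] at this
  · rw [e1, e2]
    rw [hi, na, nb] at c1
    omega
  · rw [e1, e2]
    exact hq

omit [Finite E] in
lemma ex_ne {Y : AddSubgroup E} (h : Nat.card Y = 2) : ∃ q ∈ Y, q ≠ 0 := by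
  by_contra hcon
  push Not at hcon
  have : Y = ⊥ := (AddSubgroup.eq_bot_iff_forall Y).2 hcon
  rw [this, AddSubgroup.card_bot] at h
  omega

/-- a line through `p` which is small modulo `X p` -/
theorem Cfg.lemZ (hL : S_LINE) (hW : S_LTWO) (hT : S_TIGHT) (c : Cfg X θ U)
    (le8 : ∀ g, Nat.card (X g) ≤ 8) {p a b : G} (hp : Nat.card (X p) = 8)
    (hfr : θ ∈ X p ⊔ X a ⊔ X b) (hz : Nat.card (X p ⊔ X a : AddSubgroup E) ≤ 16) :
    28 ≤ U.ncard := by
  have T := c.tri hfr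
  have exQ : ∀ q : E ⧸ X p, q + q = 0 := by
    intro q
    obtain ⟨e, rfl⟩ := QuotientAddGroup.mk_surjective q
    rw [← QuotientAddGroup.mk_add, c.exE]
    rfl
  have hM : ∀ s : Finset (E ⧸ X p), 0 ∉ s → 8 + ∑ q ∈ s, Nf (X p) U q ≤ U.ncard := by
    intro s hs
    have := cnt (X p) U (c.sub p) s hs
    rwa [hp] at this
  have h2 := c.two hW (p := p) (fun g => by rw [hp]; exact le8 g)
  obtain ⟨a1, a2, -⟩ := c.line hL le8 hp a
  obtain ⟨b1, -, b3⟩ := c.line hL le8 hp b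
  obtain ⟨c1, -, c3⟩ := c.line hL le8 hp (a + b)
  have ca := card_Im (X p) (X a)
  rw [hp] at ca
  have na : Nat.card (Im (X p) (X a)) = 2 := by
    have h3 := T.ne_one
    clear a2 b1 b3 c1 c3 h2 hM
    omega
  have nb : Nat.card (Im (X p) (X b)) = 4 ∨ Nat.card (Im (X p) (X b)) = 8 := by
    rcases b1 with h | h | h | h
    · exact absurd h T.swap12.ne_one
    · exact absurd h (fun h => T.f1 exQ na h)
    · exact Or.inl h
    · exact Or.inr h
  have nc : Nat.card (Im (X p) (X (a + b))) = 4 ∨ Nat.card (Im (X p) (X (a + b))) = 8 := by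
    rcases c1 with h | h | h | h
    · exact absurd h T.swap23.swap12.ne_one
    · exact absurd h (fun h => T.swap23.f1 exQ na h)
    · exact Or.inl h
    · exact Or.inr h
  have T' := T.swap12.swap23
  rcases nb with nb | nb
  · rcases nc with nc | nc
    · -- both have four elements
      rcases T'.card_inf exQ nb with hi | hi
      · refine T'.m1 nb nc hi ?_ hM
        rintro q hq0 (hq | hq | hq)
        · exact (b3 nb).1 q hq hq0
        · exact (c3 nc).1 q hq hq0
        · exact le_trans (by norm_num) (a2 na q hq hq0).1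
      · refine T'.m2 nb nc hi ?_ (fun q hq0 hq => (a2 na q hq hq0).1) hM ?_
        · rintro q hq0 (hq | hq)
          · exact (b3 nb).1 q hq hq0
          · exact (c3 nc).1 q hq hq0
        · by_cases ht : X p ⊓ X a = ⊥ ∨ X p ⊓ X (p + a) = ⊥
          · exact Or.inl fun q hq0 hq => (a2 na q hq hq0).2 ht
          · right
            by_contra hcon
            push Not at hcon
            rcases (b3 nb).2 with ⟨b', hb', gb⟩ | ⟨q1, hq1, q2, hq2, z1, z2, z3, z4, z5⟩
            swap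
            · have := hcon q1 z1 (Or.inl hq1)
              omega
            rcases (c3 nc).2 with ⟨c', hc', gc⟩ | ⟨q1, hq1, q2, hq2, z1, z2, z3, z4, z5⟩
            swap
            · have := hcon q1 z1 (Or.inr hq1)
              omega
            have hex : ∃ q ∈ Im (X p) (X b), q ∈ Im (X p) (X (a + b)) ∧ q ≠ 0 ∧
                Nf (X p) U q ≤ 3 := by
              obtain ⟨q, hq, hq0⟩ := ex_ne hi
              refine ⟨q, hq.1, hq.2, hq0, ?_⟩
              have := hcon q hq0 (Or.inl hq.1)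
              omega
            have hsum : b' + c' = a ∨ b' + c' = p + a := by
              rcases hb' with rfl | rfl <;> rcases hc' with rfl | rfl
              · left; exact c.pq a b'
              · right
                rw [add_left_comm, c.pq]
              · right
                rw [add_assoc, c.pq]
              · left
                have : p + b + (p + (a + b)) = (p + p) + (b + (a + b)) := by abel
                rw [this, c.exG, zero_add, c.pq]
            have ht' := c.tight hT hp hb' hc' gb gc nb nc hi hex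
            apply ht
            rcases ht' with ⟨ht', -⟩ | ⟨ht', -⟩
            · rcases hsum with h | h
              · left; rw [← h]; exact ht'
              · right; rw [← h]; exact ht'
            · rcases hsum with h | h
              · right
                rw [← h]; exact ht'
              · left
                rw [h, c.pp] at ht'
                exact ht'
    · exact T'.swap12.y3 nc (Or.inl nb) (h2 _) (h2 _) (fun _ => (b3 nb).1) hM
  · exact T'.y3 nb nc (h2 _) (h2 _) (fun h => (c3 h).1) hM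

/-- the case of eight elements -/
theorem Cfg.lemMain (hL : S_LINE) (hW : S_LTWO) (hT : S_TIGHT) (c : Cfg X θ U)
    (le8 : ∀ g, Nat.card (X g) ≤ 8) {p a b : G} (hp : Nat.card (X p) = 8)
    (hfr : θ ∈ X p ⊔ X a ⊔ X b) : 28 ≤ U.ncard := by
  have T := c.tri hfr
  have exQ : ∀ q : E ⧸ X p, q + q = 0 := by
    intro q
    obtain ⟨e, rfl⟩ := QuotientAddGroup.mk_surjective q
    rw [← QuotientAddGroup.mk_add, c.exE]
    rfl
  have hM : ∀ s : Finset (E ⧸ X p), 0 ∉ s → 8 + ∑ q ∈ s, Nf (X p) U q ≤ U.ncard := by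
    intro s hs
    have := cnt (X p) U (c.sub p) s hs
    rwa [hp] at this
  have h2 := c.two hW (p := p) (fun g => by rw [hp]; exact le8 g)
  obtain ⟨a1, a2, a3⟩ := c.line hL le8 hp a
  obtain ⟨b1, b2, b3⟩ := c.line hL le8 hp b
  obtain ⟨c1, c2, c3⟩ := c.line hL le8 hp (a + b)
  have ca := card_Im (X p) (X a)
  have cb := card_Im (X p) (X b)
  have cc := card_Im (X p) (X (a + b))
  rw [hp] at ca cb cc
  -- other frames
  have fr1 : θ ∈ X p ⊔ X b ⊔ X a := by rwa [sup_right_comm]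
  have hb' : X b ≤ X a ⊔ X (a + b) := c.le1 a b
  have ha' : X a ≤ X b ⊔ X (a + b) := by
    have := c.le1 b a
    rwa [add_comm b a] at this
  have fr2 : θ ∈ X p ⊔ X (a + b) ⊔ X a := by
    refine (?_ : X p ⊔ X a ⊔ X b ≤ _) hfr
    refine sup_le (sup_le (le_sup_left.trans le_sup_left) le_sup_right) (hb'.trans (sup_le
      le_sup_right (le_sup_right.trans le_sup_left)))
  by_cases za : Nat.card (Im (X p) (X a)) = 2
  · exact c.lemZ hL hW hT le8 hp hfr (by omega)
  by_cases zb : Nat.card (Im (X p) (X b)) = 2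
  · exact c.lemZ hL hW hT le8 hp fr1 (by omega)
  by_cases zc : Nat.card (Im (X p) (X (a + b))) = 2
  · exact c.lemZ hL hW hT le8 hp fr2 (by omega)
  have na : Nat.card (Im (X p) (X a)) = 4 ∨ Nat.card (Im (X p) (X a)) = 8 := by
    rcases a1 with h | h | h | h
    · exact absurd h T.ne_one
    · exact absurd h za
    · exact Or.inl h
    · exact Or.inr h
  have nb : Nat.card (Im (X p) (X b)) = 4 ∨ Nat.card (Im (X p) (X b)) = 8 := by
    rcases b1 with h | h | h | h
    · exact absurd h T.swap12.ne_one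
    · exact absurd h zb
    · exact Or.inl h
    · exact Or.inr h
  have nc : Nat.card (Im (X p) (X (a + b))) = 4 ∨ Nat.card (Im (X p) (X (a + b))) = 8 := by
    rcases c1 with h | h | h | h
    · exact absurd h T.swap23.swap12.ne_one
    · exact absurd h zc
    · exact Or.inl h
    · exact Or.inr h
  rcases na with na | na
  swap
  · exact T.y3 na nb (h2 _) (h2 _) (fun h => (b3 h).1) hM
  rcases nb with nb | nb
  swap
  · exact T.swap12.y3 nb (Or.inl na) (h2 _) (h2 _) (fun h => (a3 h).1) hM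
  rcases nc with nc | nc
  swap
  · exact T.swap23.swap12.y3 nc (Or.inl na) (h2 _) (h2 _) (fun h => (a3 h).1) hM
  have hN : ∀ q, q ≠ 0 → (q ∈ Im (X p) (X a) ∨ q ∈ Im (X p) (X b) ∨ q ∈ Im (X p) (X (a + b))) →
      3 ≤ Nf (X p) U q := by
    rintro q hq0 (hq | hq | hq)
    · exact (a3 na).1 q hq hq0
    · exact (b3 nb).1 q hq hq0
    · exact (c3 nc).1 q hq hq0
  have hNs : ∀ q, q ≠ 0 → (q ∈ Im (X p) (X a) ∨ q ∈ Im (X p) (X (a + b)) ∨ q ∈ Im (X p) (X b)) →
      3 ≤ Nf (X p) U q := fun q h0 h => hN q h0 (h.elim Or.inl (fun h => h.elim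
        (fun h => Or.inr (Or.inr h)) (fun h => Or.inr (Or.inl h))))
  rcases T.card_inf exQ na with hi | hi
  · exact T.m1 na nb hi hN hM
  rcases T.swap23.card_inf exQ na with hj | hj
  · exact T.swap23.m1 na nc hj hNs hM
  by_contra hcon
  have h4 : ∀ q r, (q ∈ Im (X p) (X a) ∨ q ∈ Im (X p) (X b) ∨ q ∈ Im (X p) (X (a + b))) →
      (r ∈ Im (X p) (X a) ∨ r ∈ Im (X p) (X b) ∨ r ∈ Im (X p) (X (a + b))) →
      q ≠ 0 → r ≠ 0 → q ≠ r → 4 ≤ Nf (X p) U q → 4 ≤ Nf (X p) U r → False :=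
    fun q r hq hr hq0 hr0 hne h5 h6 => hcon (T.m4ii na nb hi hN hM hq hr hq0 hr0 hne h5 h6)
  obtain ⟨e, he, he0⟩ := ex_ne hi
  obtain ⟨f, hf, hf0⟩ := ex_ne hj
  have hef : e ≠ f := by
    rintro rfl
    exact hcon (T.m4i na nb nc hi hN hM he0 he.1 he.2 hf.2)
  -- the types of the three lines
  obtain ⟨a', ha', ga⟩ := ((a3 na).2).resolve_right (by
    rintro ⟨q1, hq1, q2, hq2, z1, z2, z3, z4, z5⟩
    exact h4 q1 q2 (Or.inl hq1) (Or.inl hq2) z1 z2 z3 z4 z5)
  obtain ⟨b', hb', gb⟩ := ((b3 nb).2).resolve_right (by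
    rintro ⟨q1, hq1, q2, hq2, z1, z2, z3, z4, z5⟩
    exact h4 q1 q2 (Or.inr (Or.inl hq1)) (Or.inr (Or.inl hq2)) z1 z2 z3 z4 z5)
  obtain ⟨c', hc', gc⟩ := ((c3 nc).2).resolve_right (by
    rintro ⟨q1, hq1, q2, hq2, z1, z2, z3, z4, z5⟩
    exact h4 q1 q2 (Or.inr (Or.inr hq1)) (Or.inr (Or.inr hq2)) z1 z2 z3 z4 z5)
  -- the conclusion from a tight pair
  have fin : ∀ {u v u' v' : G}, (u' = u ∨ u' = p + u) → (v' = v ∨ v' = p + v) →
      θ ∈ X p ⊔ X u ⊔ X v → Nat.card (X (p + u')) = 8 →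
      (Nat.card (X (p + u') ⊔ X (p + v') : AddSubgroup E) ≤ 16 ∨
        Nat.card (X (p + u') ⊔ X v' : AddSubgroup E) ≤ 16) → False := by
    intro u v u' v' hu hv hθ h8 h16
    have l1 : X u ≤ X (p + u') ⊔ X p := by
      rcases hu with rfl | rfl
      · rw [sup_comm]; exact c.le1 p u'
      · rw [c.pp]; exact le_sup_left
    have l2 : ∀ w, (w = p + v' ∨ w = v') → X v ≤ X w ⊔ X p := by
      intro w hw
      have k1 : X v ≤ X p ⊔ X (p + v) := c.le1 p v
      rcases hw with rfl | rfl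
      · rcases hv with rfl | rfl
        · rw [sup_comm]; exact k1
        · rw [c.pp]; exact le_sup_left
      · rcases hv with rfl | rfl
        · exact le_sup_left
        · rw [sup_comm]; exact k1
    have l3 : ∀ w, (w = p + v' ∨ w = v') → θ ∈ X (p + u') ⊔ X w ⊔ X p := by
      intro w hw
      refine (?_ : X p ⊔ X u ⊔ X v ≤ _) hθ
      refine sup_le (sup_le le_sup_right ?_) ?_
      · exact l1.trans (sup_le (le_sup_left.trans le_sup_left) le_sup_right)
      · exact (l2 w hw).trans (sup_le (le_sup_right.trans le_sup_left) le_sup_right)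
    rcases h16 with h16 | h16
    · exact hcon (c.lemZ hL hW hT le8 h8 (l3 _ (Or.inl rfl)) h16)
    · exact hcon (c.lemZ hL hW hT le8 h8 (l3 _ (Or.inr rfl)) h16)
  have fr3 : θ ∈ X p ⊔ X a ⊔ X (a + b) := by rwa [sup_right_comm]
  by_cases h5 : Nf (X p) U e ≤ 3
  · have ht := c.tight hT hp ha' hb' ga gb na nb hi ⟨e, he.1, he.2, he0, h5⟩
    refine fin ha' hb' hfr ga.2.1 ?_
    rcases ht with ⟨-, ht⟩ | ⟨-, ht⟩
    · exact Or.inl ht
    · exact Or.inr ht
  · have h6 : Nf (X p) U f ≤ 3 := by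
      by_contra h6
      exact h4 e f (Or.inl he.1) (Or.inl hf.1) he0 hf0 hef (by omega) (by omega)
    have ht := c.tight hT hp ha' hc' ga gc na nc hj ⟨f, hf.1, hf.2, hf0, h6⟩
    refine fin ha' hc' fr3 ga.2.1 ?_
    rcases ht with ⟨-, ht⟩ | ⟨-, ht⟩
    · exact Or.inl ht
    · exact Or.inr ht

end

/-- every nonzero element of the plane is part of a basis -/
lemma basis : ∀ p : ZMod 2 × ZMod 2 × ZMod 2, p ≠ 0 → ∃ a b : ZMod 2 × ZMod 2 × ZMod 2,
    ∀ g ∈ ({(1, 0, 0), (0, 1, 0), (0, 0, 1)} : Set (ZMod 2 × ZMod 2 × ZMod 2)),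
      g = 0 ∨ g = p ∨ g = a ∨ g = p + a ∨ g = b ∨ g = p + b ∨ g = a + b ∨ g = p + (a + b) := by
  have h : ∀ p : ZMod 2 × ZMod 2 × ZMod 2, p ≠ 0 → ∃ a b : ZMod 2 × ZMod 2 × ZMod 2,
    ∀ g : ZMod 2 × ZMod 2 × ZMod 2,
      g = 0 ∨ g = p ∨ g = a ∨ g = p + a ∨ g = b ∨ g = p + b ∨ g = a + b ∨ g = p + (a + b) := by
    decide
  intro p hp
  obtain ⟨a, b, h⟩ := h p hp
  exact ⟨a, b, fun g _ => h g⟩

theorem al (hL : S_LINE) (hW : S_LTWO) (hT : S_TIGHT) : S_AL := by
  intro E _ _ exE X θ hadd hout hθ ⟨p1, hp1⟩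
  set U : Set E := ⋃ p, (X p : Set E) with hU
  have c : Cfg X θ U := ⟨exE, by decide, hadd, hout, fun g => Set.subset_iUnion (fun p => (X p : Set E)) g⟩
  -- the subgroup of index zero is contained in the others
  have hz : ∀ p, X 0 ≤ X p := by
    intro p
    have := hadd p p
    rwa [c.exG, sup_idem] at this
  -- choose a nonzero index with the largest subgroup
  obtain ⟨p, hp0, hmax⟩ : ∃ p : ZMod 2 × ZMod 2 × ZMod 2, p ≠ 0 ∧ ∀ g, Nat.card (X g) ≤ Nat.card (X p) := by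
    obtain ⟨p, hp, hm⟩ := Finset.exists_max_image
      (Finset.univ.filter (fun p : ZMod 2 × ZMod 2 × ZMod 2 => p ≠ 0)) (fun p => Nat.card (X p))
      ⟨(1, 0, 0), by simp⟩
    simp only [Finset.mem_filter, Finset.mem_univ, true_and] at hp hm
    refine ⟨p, hp, fun g => ?_⟩
    by_cases hg : g = 0
    · rw [hg]
      exact Nat.card_le_card_of_injective _ (AddSubgroup.inclusion_injective (hz p))
    · exact hm g hg
  obtain ⟨a, b, hab⟩ := basis p hp0
  have hfr : θ ∈ X p ⊔ X a ⊔ X b := by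
    have k : ∀ g ∈ ({(1, 0, 0), (0, 1, 0), (0, 0, 1)} : Set (ZMod 2 × ZMod 2 × ZMod 2)),
        X g ≤ X p ⊔ X a ⊔ X b := by
      intro g hg
      have ip : X p ≤ X p ⊔ X a ⊔ X b := le_sup_left.trans le_sup_left
      have ia : X a ≤ X p ⊔ X a ⊔ X b := le_sup_right.trans le_sup_left
      have ib : X b ≤ X p ⊔ X a ⊔ X b := le_sup_right
      rcases hab g hg with rfl | rfl | rfl | rfl | rfl | rfl | rfl | rfl
      · exact (hz p).trans ip
      · exact ip
      · exact ia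
      · exact (hadd _ _).trans (sup_le ip ia)
      · exact ib
      · exact (hadd _ _).trans (sup_le ip ib)
      · exact (hadd _ _).trans (sup_le ia ib)
      · exact (hadd _ _).trans (sup_le ip ((hadd _ _).trans (sup_le ia ib)))
    refine (sup_le (sup_le (k _ ?_) (k _ ?_)) (k _ ?_)) hθ <;> simp
  obtain ⟨r, hr⟩ := pow_two exE (X p)
  have hle : Nat.card (X p) ≤ U.ncard := Set.ncard_le_ncard (c.sub p) (Set.toFinite _)
  have hr3 : 3 ≤ r := by
    by_contra h
    have h1 : Nat.card (X p) ≤ 2 ^ 2 := by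
      rw [hr]; exact Nat.pow_le_pow_right (by norm_num) (by omega)
    have h2 := hmax p1
    omega
  rcases Nat.lt_or_ge r 5 with h5 | h5
  · interval_cases r
    · -- eight elements
      have h8 : Nat.card (X p) = 8 := by rw [hr]; norm_num
      exact c.lemMain hL hW hT (fun g => by rw [← h8]; exact hmax g) h8 hfr
    · -- sixteen elements
      have h16 : Nat.card (X p) = 16 := by rw [hr]; norm_num
      have T := c.tri hfr
      have exQ : ∀ q : E ⧸ X p, q + q = 0 := by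
        intro q
        obtain ⟨e, rfl⟩ := QuotientAddGroup.mk_surjective q
        rw [← QuotientAddGroup.mk_add, c.exE]
        rfl
      have hM : ∀ s : Finset (E ⧸ X p), 0 ∉ s → 16 + ∑ q ∈ s, Nf (X p) U q ≤ U.ncard := by
        intro s hs
        have := cnt (X p) U (c.sub p) s hs
        rwa [h16] at this
      have h2 := c.two hW (p := p) hmax
      have pw : ∀ Y : AddSubgroup (E ⧸ X p), Nat.card Y = 1 ∨ Nat.card Y = 2 ∨ 4 ≤ Nat.card Y := by
        intro Y
        obtain ⟨n, hn⟩ := pow_two exQ Y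
        rcases n with _ | _ | n
        · left; rw [hn]; norm_num
        · right; left; rw [hn]; norm_num
        · right; right; rw [hn]
          calc 4 = 2 ^ 2 := by norm_num
            _ ≤ 2 ^ (n + 1 + 1) := Nat.pow_le_pow_right (by norm_num) (by omega)
      have hNab : ∀ q, q ≠ 0 → (q ∈ Im (X p) (X a) ∨ q ∈ Im (X p) (X b) ∨ q ∈ Im (X p) (X (a + b))) →
          2 ≤ Nf (X p) U q := by
        rintro q hq0 (hq | hq | hq)
        · exact h2 _ q hq hq0
        · exact h2 _ q hq hq0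
        · exact h2 _ q hq hq0
      rcases pw (Im (X p) (X a)) with ha | ha | ha
      · exact absurd ha T.ne_one
      · rcases pw (Im (X p) (X b)) with hb | hb | hb
        · exact absurd hb T.swap12.ne_one
        · exact absurd hb (fun hb => T.f1 exQ ha hb)
        rcases pw (Im (X p) (X (a + b))) with hc | hc | hc
        · exact absurd hc T.swap23.swap12.ne_one
        · exact absurd hc (fun hc => T.swap23.f1 exQ ha hc)
        exact T.swap12.swap23.sixteen hb hc (fun q h0 h => hNab q h0 (by tauto)) hM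
      · rcases pw (Im (X p) (X b)) with hb | hb | hb
        · exact absurd hb T.swap12.ne_one
        · rcases pw (Im (X p) (X (a + b))) with hc | hc | hc
          · exact absurd hc T.swap23.swap12.ne_one
          · exact absurd hc (fun hc => T.swap12.swap23.f1 exQ hb hc)
          exact T.swap23.sixteen ha hc (fun q h0 h => hNab q h0 (by tauto)) hM
        · exact T.sixteen ha hb hNab hM
  · have : 2 ^ 5 ≤ 2 ^ r := Nat.pow_le_pow_right (by norm_num) h5
    omega

end Pool.Agent.N88.TS
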