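import Pool.Agent.N88.TS.Stm

/-! Project TS: linked families with at most 27 values on a three-generated subgroup are linked
on planes (helper344). -/

set_option autoImplicit false

namespace Pool.Agent.N88.TS

open Pool.Agent.W622.ETG Pool.Agent.TH188.ETP Pool.Agent.TH188.ETV Pool.Agent.H315R3.ETC Module
open Pool.Agent.TH188.ET (exists_char exists_factor)

section dual
variable {V : Type} [AddCommGroup V] [Module (ZMod 2) V]

theorem zz (a : ZMod 2) : a = 0 ∨ a = 1 := by
  revert a; decide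

theorem fin_fam [Finite V] (A : Fam V) : Finite A := by
  have : Finite (Dl V) := DFunLike.finite _
  have : Finite (Frm V) := DFunLike.finite _
  infer_instance

/-- the values of the members of `A` at a pair -/
def vl (A : Fam V) (p : V) : V →+ (A → ZMod 2) :=
  AddMonoidHom.mk' (fun b ω => ω.1 p b) (by
    intro a b
    funext ω
    exact map_add (ω.1 p) a b)

theorem rep [Finite V] (A : Fam V) (l : (A → ZMod 2) →+ ZMod 2) :
    ∃ w ∈ A, ∀ p b, l (vl A p b) = w p b := by
  classical
  have := fin_fam A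
  have : Fintype A := Fintype.ofFinite A
  refine ⟨∑ ω : A, l (Pi.single ω 1) • ω.1, ?_, ?_⟩
  · exact A.sum_mem fun ω _ => A.smul_mem _ ω.2
  · intro p b
    have h1 : l (vl A p b) = ∑ ω : A, l (Pi.single ω (vl A p b ω)) := by
      rw [← map_sum, Finset.univ_sum_single]
    have h2 : ∀ (ω : A) (a : ZMod 2), l (Pi.single ω a) = l (Pi.single ω 1) * a := by
      intro ω a
      rcases zz a with rfl | rfl
      · rw [Pi.single_zero, map_zero, mul_zero]
      · rw [mul_one]
    rw [h1, LinearMap.sum_apply, LinearMap.sum_apply]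
    refine Finset.sum_congr rfl fun ω _ => ?_
    rw [h2, LinearMap.smul_apply, LinearMap.smul_apply, smul_eq_mul]
    rfl

/-- the common kernel -/
def Kr (A : Fam V) (p : V) : AddSubgroup V := (vl A p).ker

theorem rep' [Finite V] (A : Fam V) (p : V) (l : V →+ ZMod 2) (h : ∀ v ∈ Kr A p, l v = 0) :
    ∃ w ∈ A, ∀ v, w p v = l v := by
  obtain ⟨k, hk⟩ := exists_factor (Y := A → ZMod 2) (fun y => by
    funext ω
    exact CharTwo.add_self_eq_zero _) (vl A p) l h
  obtain ⟨w, hw, hw'⟩ := rep A k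
  exact ⟨w, hw, fun v => by rw [← hw', hk]⟩

theorem vadd2 (v : V) : v + v = 0 := by
  have h : (2 : ZMod 2) • v = v + v := two_smul _ _
  rw [← h, show (2 : ZMod 2) = 0 from rfl, zero_smul]

theorem slot [Finite V] {A : Fam V} (hL : Linked A) (p q a b : V) (h : vl A p a = vl A q b) :
    ∃ c, vl A p c = vl A p a ∧ vl A q c = vl A q b := by
  by_cases hab : a + b ∈ Kr A p ⊔ Kr A q
  · obtain ⟨u, hu, v, hv, huv⟩ := AddSubgroup.mem_sup.1 hab
    have hu' : vl A p u = 0 := hu
    have hv' : vl A q v = 0 := hv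
    refine ⟨a + u, ?_, ?_⟩
    · rw [map_add, hu', add_zero]
    · have e : a + u = b + v := by
        have h1 : a + u = (a + b) + (b + u) := by
          have : (a + b) + (b + u) = a + (b + b) + u := by abel
          rw [this, vadd2, add_zero]
        rw [h1, ← huv]
        have : u + v + (b + u) = b + v + (u + u) := by abel
        rw [this, vadd2, add_zero]
      rw [e, map_add, hv', add_zero]
  · exfalso
    obtain ⟨l, hl, hl1⟩ := exists_char (Kr A p ⊔ Kr A q) (fun x => by
      rw [vadd2]; exact zero_mem _) (a + b) hab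
    obtain ⟨w1, hw1, e1⟩ := rep' A p l (fun v hv => hl v (AddSubgroup.mem_sup_left hv))
    obtain ⟨w2, hw2, e2⟩ := rep' A q l (fun v hv => hl v (AddSubgroup.mem_sup_right hv))
    have e3 : w1 p = w2 q := LinearMap.ext fun v => by rw [e1, e2]
    obtain ⟨ζ, hζ, z1, z2⟩ := hL w1 hw1 w2 hw2 p q e3
    apply hl1
    rw [map_add, ← e1, ← e1, ← z1]
    have h3 : ζ p a = ζ q b := congrFun h ⟨ζ, hζ⟩
    have h4 : ζ p b = ζ q b := by rw [z1, z2]
    rw [h4, h3]
    exact CharTwo.add_self_eq_zero _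

/-- points -/
abbrev P3 : Type := ZMod 2 × ZMod 2 × ZMod 2

/-- the slot of a point -/
def pb (x y z : V) (p : P3) : V := p.1 • x + p.2.1 • y + p.2.2 • z

/-- parity -/
def ep (p : P3) : ZMod 2 := p.1 + p.2.1 + p.2.2

theorem pb_add (x y z : V) (p q : P3) : pb x y z (p + q) = pb x y z p + pb x y z q := by
  unfold pb
  rw [Prod.fst_add, Prod.snd_add, Prod.fst_add, Prod.snd_add, add_smul, add_smul, add_smul]
  abel

theorem ep_add (p q : P3) : ep (p + q) = ep p + ep q := by
  unfold ep
  rw [Prod.fst_add, Prod.snd_add, Prod.fst_add, Prod.snd_add]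
  ring

theorem ep_one (p : P3) (h : ep p = 1) :
    p = (1, 0, 0) ∨ p = (0, 1, 0) ∨ p = (0, 0, 1) ∨ p = (1, 1, 1) := by
  revert p
  decide

/-- the map of a point -/
def gp (A : Fam V) (x y z : V) (f : Dl V) (p : P3) : V →+ (A → ZMod 2) × ZMod 2 :=
  AddMonoidHom.mk' (fun b => (vl A (pb x y z p) b, ep p * f b)) (by
    intro a b
    refine Prod.ext ?_ ?_
    · exact map_add _ a b
    · show ep p * f (a + b) = ep p * f a + ep p * f b
      rw [map_add, mul_add])

theorem gp_apply (A : Fam V) (x y z : V) (f : Dl V) (p : P3) (b : V) :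
    gp A x y z f p b = (vl A (pb x y z p) b, ep p * f b) := rfl

theorem vl_add (A : Fam V) (p q b : V) : vl A (p + q) b = vl A p b + vl A q b := by
  funext ω
  show ω.1 (p + q) b = ω.1 p b + ω.1 q b
  rw [map_add, LinearMap.add_apply]

theorem gp_add (A : Fam V) (x y z : V) (f : Dl V) (p q : P3) (b : V) :
    gp A x y z f (p + q) b = gp A x y z f p b + gp A x y z f q b := by
  rw [gp_apply, gp_apply, gp_apply, pb_add, vl_add, ep_add, add_mul]
  rfl

theorem in_odd {A : Fam V} {x y z : V} {f : Dl V} (hx : In A x f) (hy : In A y f)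
    (hz : In A z f) (hw : In A (x + y + z) f) (p : P3) (h : ep p = 1) :
    In A (pb x y z p) f := by
  rcases ep_one p h with rfl | rfl | rfl | rfl
  · have : pb x y z (1, 0, 0) = x := by simp [pb]
    rw [this]; exact hx
  · have : pb x y z (0, 1, 0) = y := by simp [pb]
    rw [this]; exact hy
  · have : pb x y z (0, 0, 1) = z := by simp [pb]
    rw [this]; exact hz
  · have : pb x y z (1, 1, 1) = x + y + z := by simp [pb]
    rw [this]; exact hw

theorem in_vl {A : Fam V} {p : V} {f : Dl V} (h : In A p f) {a c : V}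
    (hac : vl A p a = vl A p c) : f a = f c := by
  obtain ⟨ω, hω, rfl⟩ := h
  exact congrFun hac ⟨ω, hω⟩

theorem h2 [Finite V] {A : Fam V} (hL : Linked A) {x y z : V} {f : Dl V}
    (hodd : ∀ p : P3, ep p = 1 → In A (pb x y z p) f) (p q : P3) :
    ((0, 1) : (A → ZMod 2) × ZMod 2) ∉ (gp A x y z f p).range ⊔ (gp A x y z f q).range := by
  intro hmem
  obtain ⟨_, ⟨a, rfl⟩, _, ⟨b, rfl⟩, hab⟩ := AddSubgroup.mem_sup.1 hmem
  rw [gp_apply, gp_apply] at hab
  have e1 : vl A (pb x y z p) a + vl A (pb x y z q) b = 0 := congrArg Prod.fst hab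
  have e2 : ep p * f a + ep q * f b = 1 := congrArg Prod.snd hab
  have e3 : vl A (pb x y z p) a = vl A (pb x y z q) b := by
    funext ω
    exact CharTwo.add_eq_zero.1 (congrFun e1 ω)
  obtain ⟨c, c1, c2⟩ := slot hL _ _ a b e3
  have hkey : ep (p + q) = 1 → f c = 0 := by
    intro h
    have h5 : vl A (pb x y z (p + q)) c = vl A (pb x y z (p + q)) 0 := by
      rw [pb_add, vl_add, c1, c2, e1, map_zero]
    rw [in_vl (hodd _ h) h5, map_zero]
  rcases zz (ep p) with hp | hp <;> rcases zz (ep q) with hq | hq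
  · rw [hp, hq, zero_mul, zero_mul, add_zero] at e2
    exact zero_ne_one e2
  · have h6 := hkey (by rw [ep_add, hp, hq, zero_add])
    rw [hp, hq, zero_mul, one_mul, zero_add] at e2
    have h7 : f c = f b := in_vl (hodd _ hq) c2
    rw [← h7, h6] at e2
    exact zero_ne_one e2
  · have h6 := hkey (by rw [ep_add, hp, hq, add_zero])
    rw [hp, hq, zero_mul, one_mul, add_zero] at e2
    have h7 : f c = f a := in_vl (hodd _ hp) c1
    rw [← h7, h6] at e2
    exact zero_ne_one e2
  · rw [hp, hq, one_mul, one_mul] at e2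
    have h7 : f c = f a := in_vl (hodd _ hp) c1
    have h8 : f c = f b := in_vl (hodd _ hq) c2
    rw [← h7, ← h8, CharTwo.add_self_eq_zero] at e2
    exact zero_ne_one e2

theorem h3 [Finite V] {A : Fam V} {x y z : V} {f : Dl V}
    (hno : ∀ ω ∈ A, ω x = f → ω y = f → ω z = f → False) :
    ((0, 1) : (A → ZMod 2) × ZMod 2) ∈ (gp A x y z f (1, 0, 0)).range ⊔
      (gp A x y z f (0, 1, 0)).range ⊔ (gp A x y z f (0, 0, 1)).range := by
  by_contra hmem
  obtain ⟨χ, hχ, hχ1⟩ := exists_char _ (fun e => by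
    have : e + e = 0 := by
      refine Prod.ext ?_ ?_
      · funext ω
        exact CharTwo.add_self_eq_zero _
      · exact CharTwo.add_self_eq_zero _
    rw [this]; exact zero_mem _) _ hmem
  have hχ2 : χ (0, 1) = 1 := (zz _).resolve_left hχ1
  have hs : ∀ s : ZMod 2, χ (0, s) = s := by
    intro s
    rcases zz s with rfl | rfl
    · exact map_zero χ
    · exact hχ2
  obtain ⟨w, hw, hw'⟩ := rep A (χ.comp (AddMonoidHom.inl (A → ZMod 2) (ZMod 2)))
  have hsp : ∀ (t : A → ZMod 2) (s : ZMod 2), χ (t, s) = χ (t, 0) + s := by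
    intro t s
    have h1 : ((t, s) : (A → ZMod 2) × ZMod 2) = (t, 0) + (0, s) := by
      rw [Prod.mk_add_mk, add_zero, zero_add]
    rw [h1, map_add, hs]
  have hfin : ∀ p : P3, ep p = 1 → (gp A x y z f p).range ≤ (gp A x y z f (1, 0, 0)).range ⊔
      (gp A x y z f (0, 1, 0)).range ⊔ (gp A x y z f (0, 0, 1)).range →
      w (pb x y z p) = f := by
    intro p hp hle
    refine LinearMap.ext fun b => ?_
    have h1 := hχ _ (hle ⟨b, rfl⟩)
    rw [gp_apply, hsp, hp, one_mul] at h1
    have h2 : χ (vl A (pb x y z p) b, 0) = w (pb x y z p) b := hw' _ _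
    rw [h2] at h1
    exact CharTwo.add_eq_zero.1 h1
  refine hno w hw ?_ ?_ ?_
  · have := hfin (1, 0, 0) (by decide) (le_sup_of_le_left le_sup_left)
    rwa [show pb x y z (1, 0, 0) = x by simp [pb]] at this
  · have := hfin (0, 1, 0) (by decide) (le_sup_of_le_left le_sup_right)
    rwa [show pb x y z (0, 1, 0) = y by simp [pb]] at this
  · have := hfin (0, 0, 1) (by decide) le_sup_right
    rwa [show pb x y z (0, 0, 1) = z by simp [pb]] at this

theorem r2 [Finite V] {A : Fam V} {x y z : V} {f : Dl V} (p : P3)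
    (hc : Nat.card (gp A x y z f p).range ≤ 4) : R2 A (pb x y z p) := by
  have := fin_fam A
  let l : A → ((A → ZMod 2) × ZMod 2 →+ ZMod 2) := fun ω =>
    (Pi.evalAddMonoidHom (fun _ : A => ZMod 2) ω).comp (AddMonoidHom.fst _ _)
  have hl : ∀ (ω : A) (b : V), l ω (gp A x y z f p b) = ω.1 (pb x y z p) b := fun _ _ => rfl
  intro ω₁ m1 ω₂ m2 ω₃ m3
  have e1 := hl ⟨ω₁, m1⟩
  have e2 := hl ⟨ω₂, m2⟩
  have e3 := hl ⟨ω₃, m3⟩
  rcases comb3 _ inferInstance hc (l ⟨ω₁, m1⟩) (l ⟨ω₂, m2⟩) (l ⟨ω₃, m3⟩) with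
    h | h | h | h | h | h | h
  · exact Or.inl (LinearMap.ext fun b => by
      have := h _ ⟨b, rfl⟩
      rw [e1] at this
      exact this)
  · exact Or.inr (Or.inl (LinearMap.ext fun b => by
      have := h _ ⟨b, rfl⟩
      rw [e2] at this
      exact this))
  · exact Or.inr (Or.inr (Or.inl (LinearMap.ext fun b => by
      have := h _ ⟨b, rfl⟩
      rw [e3] at this
      exact this)))
  · exact Or.inr (Or.inr (Or.inr (Or.inl (LinearMap.ext fun b => by
      have := h _ ⟨b, rfl⟩
      rw [e1, e2] at this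
      exact this))))
  · exact Or.inr (Or.inr (Or.inr (Or.inr (Or.inl (LinearMap.ext fun b => by
      have := h _ ⟨b, rfl⟩
      rw [e1, e3] at this
      exact this)))))
  · exact Or.inr (Or.inr (Or.inr (Or.inr (Or.inr (Or.inl (LinearMap.ext fun b => by
      have := h _ ⟨b, rfl⟩
      rw [e2, e3] at this
      exact this))))))
  · exact Or.inr (Or.inr (Or.inr (Or.inr (Or.inr (Or.inr (LinearMap.ext fun b => by
      have := h _ ⟨b, rfl⟩
      rw [e1, e2, e3] at this
      rw [LinearMap.add_apply]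
      exact this))))))

end dual

theorem dual (h : S_AL) : S_DUAL := by
  intro V _ _ _ A hL x y z hv f fx fy fz fw
  by_contra hno'
  have hno : ∀ ω ∈ A, ω x = f → ω y = f → ω z = f → False :=
    fun ω hω h1 h2 h3 => hno' ⟨ω, hω, h1, h2, h3⟩
  have := fin_fam A
  have hodd := in_odd fx fy fz fw
  have hH2 := h2 hL hodd
  have h28 := h ((A → ZMod 2) × ZMod 2) (fun e => by
    refine Prod.ext ?_ ?_
    · funext ω
      exact CharTwo.add_self_eq_zero _
    · exact CharTwo.add_self_eq_zero _)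
    (fun p => (gp A x y z f p).range) (0, 1)
    (by
      rintro p q _ ⟨b, rfl⟩
      rw [gp_add]
      exact add_mem (AddSubgroup.mem_sup_left ⟨b, rfl⟩) (AddSubgroup.mem_sup_right ⟨b, rfl⟩))
    hH2 (h3 hno)
    (by
      by_contra hsm
      push Not at hsm
      have r1 := r2 (1, 0, 0) (hsm (1, 0, 0))
      have r2' := r2 (0, 1, 0) (hsm (0, 1, 0))
      have r3 := r2 (0, 0, 1) (hsm (0, 0, 1))
      have r4 := r2 (1, 1, 1) (hsm (1, 1, 1))
      rw [show pb x y z (1, 0, 0) = x by simp [pb]] at r1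
      rw [show pb x y z (0, 1, 0) = y by simp [pb]] at r2'
      rw [show pb x y z (0, 0, 1) = z by simp [pb]] at r3
      rw [show pb x y z (1, 1, 1) = x + y + z by simp [pb]] at r4
      exact hno' (plane_of_R2 hL r1 r2' r3 r4 f fx fy fz fw))
  have hle : (⋃ p : P3, ((gp A x y z f p).range : Set ((A → ZMod 2) × ZMod 2))).ncard ≤
      (vals A x y z).ncard := by
    refine Set.ncard_le_ncard_of_injOn Prod.fst ?_ ?_ (Set.toFinite _)
    · intro u hu
      obtain ⟨p, hp⟩ := Set.mem_iUnion.1 hu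
      obtain ⟨b, rfl⟩ := hp
      exact ⟨p.1, p.2.1, p.2.2, b, rfl⟩
    · rintro ⟨g, s⟩ hu ⟨g', s'⟩ hu' hgg
      obtain ⟨p, hp⟩ := Set.mem_iUnion.1 hu
      obtain ⟨q, hq⟩ := Set.mem_iUnion.1 hu'
      have hgg' : g = g' := hgg
      subst hgg'
      by_contra hne
      have hss : s ≠ s' := fun h => hne (by rw [h])
      apply hH2 p q
      have h1 : ((0, 1) : (A → ZMod 2) × ZMod 2) = (g, s) + (g, s') := by
        refine Prod.ext ?_ ?_
        · funext ω
          exact (CharTwo.add_self_eq_zero _).symm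
        · show (1 : ZMod 2) = s + s'
          rcases zz s with rfl | rfl <;> rcases zz s' with rfl | rfl
          · exact absurd rfl hss
          · rw [zero_add]
          · rw [add_zero]
          · exact absurd rfl hss
      rw [h1]
      exact add_mem (AddSubgroup.mem_sup_left hp) (AddSubgroup.mem_sup_right hq)
  have h29 : 28 ≤ 27 := h28.trans (hle.trans hv)
  omega

end Pool.Agent.N88.TS
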