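import Pool.Agent.N88.TS.Stm
import Pool.Agent.R649.ET.Lin

/-! Project TS, step LINE (helper434): three subgroups with equal pairwise sums. -/

set_option autoImplicit false

namespace Pool.Agent.N88.TS

open Pool.Agent.R649.ETS (card_mul_rel card_sup_inf pow_two)

namespace LineAux

variable {E : Type} [AddCommGroup E]

lemma card_im (X A : AddSubgroup E) : Nat.card (Im X A) = X.relIndex A := by
  unfold Im
  rw [← AddSubgroup.relIndex_ker, QuotientAddGroup.ker_mk']

lemma mk_eq {X : AddSubgroup E} {x y : E} :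
    (QuotientAddGroup.mk x : E ⧸ X) = QuotientAddGroup.mk y ↔ y - x ∈ X := by
  rw [QuotientAddGroup.eq]
  rw [neg_add_eq_sub]

/-- the fibres -/
lemma fib [Finite E] (X A B : AddSubgroup E) (U : Set E) (hA : (A : Set E) ⊆ U)
    (hB : (B : Set E) ⊆ U) (hAB : A ≤ X ⊔ B) (q : E ⧸ X) (hq : q ∈ Im X A) (hq0 : q ≠ 0) :
    (Nat.card (X ⊓ A : AddSubgroup E) + Nat.card (X ⊓ B : AddSubgroup E) ≤ Nf X U q) ∨
    ∃ e ∈ A ⊓ B, e ∉ X ∧ (QuotientAddGroup.mk e : E ⧸ X) = q ∧
      Nat.card (X ⊓ A : AddSubgroup E) + Nat.card (X ⊓ B : AddSubgroup E) ≤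
        Nf X U q + Nat.card ((X ⊓ A) ⊓ (X ⊓ B) : AddSubgroup E) := by
  obtain ⟨c, hc, hcq⟩ := hq
  have hcq' : (QuotientAddGroup.mk c : E ⧸ X) = q := hcq
  obtain ⟨x, hx, d, hd, hxd⟩ := AddSubgroup.mem_sup.1 (hAB hc)
  have hdq : (QuotientAddGroup.mk d : E ⧸ X) = q := by
    rw [← hcq', mk_eq, ← hxd, add_sub_cancel_right]
    exact hx
  obtain ⟨s1, hs1⟩ : ∃ s1 : Set E, s1 = (fun p => c + p) '' ((X ⊓ A : AddSubgroup E) : Set E) :=
    ⟨_, rfl⟩
  obtain ⟨s2, hs2⟩ : ∃ s2 : Set E, s2 = (fun p => d + p) '' ((X ⊓ B : AddSubgroup E) : Set E) :=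
    ⟨_, rfl⟩
  have c1 : s1.ncard = Nat.card (X ⊓ A : AddSubgroup E) := by
    rw [hs1, Set.ncard_image_of_injective _ (add_right_injective c)]
    rfl
  have c2 : s2.ncard = Nat.card (X ⊓ B : AddSubgroup E) := by
    rw [hs2, Set.ncard_image_of_injective _ (add_right_injective d)]
    rfl
  have m1 : ∀ u ∈ s1, u ∈ A ∧ (QuotientAddGroup.mk u : E ⧸ X) = q := by
    intro u hu
    rw [hs1] at hu
    obtain ⟨p, hp, rfl⟩ := hu
    refine ⟨A.add_mem hc hp.2, ?_⟩
    rw [← hcq', mk_eq]
    show c - (c + p) ∈ X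
    rw [sub_add_cancel_left]
    exact X.neg_mem hp.1
  have m2 : ∀ u ∈ s2, u ∈ B ∧ (QuotientAddGroup.mk u : E ⧸ X) = q := by
    intro u hu
    rw [hs2] at hu
    obtain ⟨p, hp, rfl⟩ := hu
    refine ⟨B.add_mem hd hp.2, ?_⟩
    rw [← hdq, mk_eq]
    show d - (d + p) ∈ X
    rw [sub_add_cancel_left]
    exact X.neg_mem hp.1
  have hsub : s1 ∪ s2 ⊆ {u ∈ U | (QuotientAddGroup.mk u : E ⧸ X) = q} := by
    rintro u (hu | hu)
    · exact ⟨hA (m1 u hu).1, (m1 u hu).2⟩
    · exact ⟨hB (m2 u hu).1, (m2 u hu).2⟩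
  have h1 := Set.ncard_le_ncard hsub (Set.toFinite _)
  have h2 := Set.ncard_union_add_ncard_inter s1 s2 (Set.toFinite _) (Set.toFinite _)
  rw [c1, c2] at h2
  by_cases hem : s1 ∩ s2 = ∅
  · left
    rw [hem, Set.ncard_empty, add_zero] at h2
    unfold Nf
    omega
  · right
    obtain ⟨e, he1, he2⟩ := Set.nonempty_iff_ne_empty.2 hem
    refine ⟨e, ⟨(m1 e he1).1, (m2 e he2).1⟩, ?_, (m1 e he1).2, ?_⟩
    · intro hX
      apply hq0
      rw [← (m1 e he1).2]
      exact (QuotientAddGroup.eq_zero_iff e).2 hX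
    · have h3 : s1 ∩ s2 ⊆ (fun p => e + p) ''
          (((X ⊓ A) ⊓ (X ⊓ B) : AddSubgroup E) : Set E) := by
        rintro u ⟨hu1, hu2⟩
        refine ⟨u - e, ?_, add_sub_cancel _ _⟩
        rw [hs1] at he1 hu1
        rw [hs2] at he2 hu2
        obtain ⟨p, hp, rfl⟩ := hu1
        obtain ⟨p0, hp0, rfl⟩ := he1
        obtain ⟨p', hp', h4⟩ := hu2
        obtain ⟨p0', hp0', h5⟩ := he2
        simp only at h4 h5 ⊢
        refine ⟨?_, ?_⟩
        · rw [add_sub_add_left_eq_sub]
          exact (X ⊓ A).sub_mem hp hp0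
        · rw [← h4, ← h5, add_sub_add_left_eq_sub]
          exact (X ⊓ B).sub_mem hp' hp0'
      have h4 := Set.ncard_le_ncard h3 (Set.toFinite _)
      rw [Set.ncard_image_of_injective _ (add_right_injective e)] at h4
      have h5 : (((X ⊓ A) ⊓ (X ⊓ B) : AddSubgroup E) : Set E).ncard =
        Nat.card ((X ⊓ A) ⊓ (X ⊓ B) : AddSubgroup E) := rfl
      rw [h5] at h4
      unfold Nf
      omega

lemma card_one {Y : AddSubgroup E} [Finite E] (h : Nat.card Y = 1) : Y = ⊥ :=
  AddSubgroup.card_eq_one.1 h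

lemma card_bot' {Y : AddSubgroup E} (h : Y = ⊥) : Nat.card Y = 1 := by
  rw [h]
  exact AddSubgroup.card_bot

end LineAux

open LineAux

theorem line : S_LINE := by
  intro E _ _ hE X A B U hX hA hB hXAB hAXB hBXA cX cA cB
  obtain ⟨n, hn⟩ : ∃ n, n = Nat.card (Im X A) := ⟨_, rfl⟩
  have hsup1 : X ⊔ A = X ⊔ B := le_antisymm (sup_le le_sup_left hAXB) (sup_le le_sup_left hBXA)
  have hsup2 : A ⊔ B = X ⊔ A := le_antisymm (sup_le le_sup_right hBXA) (sup_le hXAB le_sup_left)
  have e1 : Nat.card (X ⊓ A : AddSubgroup E) * n = Nat.card A := by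
    have h1 := card_mul_rel (inf_le_right : X ⊓ A ≤ A)
    rw [AddSubgroup.inf_relIndex_right] at h1
    rw [hn, card_im]
    exact h1
  have e2 : 8 * n = Nat.card (X ⊔ A : AddSubgroup E) := by
    have h1 := card_mul_rel (le_sup_left : X ≤ X ⊔ A)
    rw [cX, sup_comm, AddSubgroup.relIndex_sup_right] at h1
    rw [hn, card_im, sup_comm X A]
    exact h1
  have e3 : X.relIndex B = n := by
    have h1 := card_mul_rel (le_sup_left : X ≤ X ⊔ B)
    rw [cX, sup_comm, AddSubgroup.relIndex_sup_right, sup_comm, ← hsup1, ← e2] at h1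
    omega
  have e4 : Nat.card (X ⊓ B : AddSubgroup E) * n = Nat.card B := by
    have h1 := card_mul_rel (inf_le_right : X ⊓ B ≤ B)
    rw [AddSubgroup.inf_relIndex_right, e3] at h1
    exact h1
  have e5 := card_sup_inf A B
  rw [hsup2, ← e2] at e5
  obtain ⟨a, ha⟩ := pow_two hE A
  obtain ⟨p, hp⟩ := pow_two hE (X ⊓ A)
  obtain ⟨r, hr⟩ := pow_two hE (X ⊓ B)
  obtain ⟨t, ht⟩ := pow_two hE (A ⊓ B)
  obtain ⟨w, hw⟩ := pow_two hE ((X ⊓ A) ⊓ (X ⊓ B))
  have hn2 : n ∣ 2 ^ a := ⟨_, by rw [← ha, ← e1, mul_comm]⟩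
  obtain ⟨ν, -, hν⟩ := (Nat.dvd_prime_pow Nat.prime_two).1 hn2
  have ha3 : Nat.card A = 2 ^ (p + ν) := by rw [← e1, hp, hν, pow_add]
  have hb3 : Nat.card B = 2 ^ (r + ν) := by rw [← e4, hr, hν, pow_add]
  have l1 : p + ν ≤ 3 := by
    by_contra hcon
    have : 2 ^ 4 ≤ 2 ^ (p + ν) := Nat.pow_le_pow_right (by norm_num) (by omega)
    omega
  have l2 : r + ν ≤ 3 := by
    by_contra hcon
    have : 2 ^ 4 ≤ 2 ^ (r + ν) := Nat.pow_le_pow_right (by norm_num) (by omega)
    omega
  have l3 : 3 + t = p + r + ν := by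
    rw [ht, ha3, hb3, hν] at e5
    have h1 : 2 ^ (3 + ν + t) = 2 ^ (p + ν + (r + ν)) := by
      rw [pow_add, pow_add, pow_add 2 (p + ν) (r + ν)]
      have : (2 : ℕ) ^ 3 = 8 := by norm_num
      rw [this]
      exact e5
    have h2 := Nat.pow_right_injective (le_refl 2) h1
    omega
  have hwp : 2 ^ w ≤ 2 ^ p := by
    rw [← hw, ← hp]
    exact AddSubgroup.card_le_of_le inf_le_left
  have hwr : 2 ^ w ≤ 2 ^ r := by
    rw [← hw, ← hr]
    exact AddSubgroup.card_le_of_le inf_le_right
  -- the intersection of `A` and `B`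
  have hT1 : ∀ e ∈ A ⊓ B, e ∉ X → 1 ≤ t := by
    intro e he heX
    by_contra hcon
    have h1 : t = 0 := by omega
    rw [h1, pow_zero] at ht
    have h2 := card_one ht
    rw [h2, AddSubgroup.mem_bot] at he
    rw [he] at heX
    exact heX X.zero_mem
  have hT2 : t = 1 → ∀ e ∈ A ⊓ B, e ∉ X → (∀ e' ∈ A ⊓ B, e' = 0 ∨ e' = e) ∧ w = 0 := by
    intro h1 e he heX
    have he0 : e ≠ 0 := by
      rintro rfl
      exact heX X.zero_mem
    have h2 : ∀ e' ∈ A ⊓ B, e' = 0 ∨ e' = e := by
      intro e' he'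
      by_contra hcon
      push Not at hcon
      have h3 : ({0, e, e'} : Set E) ⊆ ((A ⊓ B : AddSubgroup E) : Set E) := by
        intro x hx
        simp only [Set.mem_insert_iff, Set.mem_singleton_iff] at hx
        rcases hx with rfl | rfl | rfl
        · exact (A ⊓ B).zero_mem
        · exact he
        · exact he'
      have h4 := Set.ncard_le_ncard h3 (Set.toFinite _)
      have h5 : ({0, e, e'} : Set E).ncard = 3 :=
        Set.ncard_eq_three.2 ⟨0, e, e', he0.symm, hcon.1.symm, hcon.2.symm, rfl⟩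
      have h6 : ((A ⊓ B : AddSubgroup E) : Set E).ncard = 2 := by
        show Nat.card (A ⊓ B : AddSubgroup E) = 2
        rw [ht, h1, pow_one]
      omega
    refine ⟨h2, ?_⟩
    have h7 : ((X ⊓ A) ⊓ (X ⊓ B) : AddSubgroup E) = ⊥ := by
      rw [eq_bot_iff]
      rintro x ⟨⟨hx1, hx2⟩, -, hx3⟩
      rw [AddSubgroup.mem_bot]
      rcases h2 x ⟨hx2, hx3⟩ with h8 | h8
      · exact h8
      · rw [h8] at hx1
        exact absurd hx1 heX
    have h8 := card_bot' h7
    rw [hw] at h8
    by_contra hcon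
    have : 2 ^ 1 ≤ 2 ^ w := Nat.pow_le_pow_right (by norm_num) (by omega)
    omega
  have hfib := fib X A B U hA hB hAXB
  rw [hp, hr, hw] at hfib
  rw [← hn]
  refine ⟨?_, ?_, ?_⟩
  · have h1 : ν ≤ 3 := by omega
    interval_cases ν <;> simp [hν]
  · intro hn2
    have hν1 : ν = 1 := by
      rw [hν] at hn2
      exact Nat.pow_right_injective (le_refl 2) (by simpa using hn2)
    intro q hq hq0
    have h1 := hfib q hq hq0
    have hp2 : p ≤ 2 := by omega
    have hr2 : r ≤ 2 := by omega
    constructor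
    · rcases h1 with h1 | ⟨e, he, heX, -, h1⟩
      · have h2 : 2 ≤ p + r := by omega
        interval_cases p <;> interval_cases r <;> omega
      · have h2 := hT1 e he heX
        have h3 : 3 ≤ p + r := by omega
        interval_cases p <;> interval_cases r <;> omega
    · intro hbot
      have h2 : p = 0 ∨ r = 0 := by
        rcases hbot with h2 | h2
        · left
          have := card_bot' h2
          rw [hp] at this
          by_contra hcon
          have : 2 ^ 1 ≤ 2 ^ p := Nat.pow_le_pow_right (by norm_num) (by omega)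
          omega
        · right
          have := card_bot' h2
          rw [hr] at this
          by_contra hcon
          have : 2 ^ 1 ≤ 2 ^ r := Nat.pow_le_pow_right (by norm_num) (by omega)
          omega
      rcases h1 with h1 | ⟨e, he, heX, -, h1⟩
      · rcases h2 with h2 | h2
        · have h3 : r = 2 := by omega
          rw [h2, h3] at h1
          omega
        · have h3 : p = 2 := by omega
          rw [h2, h3] at h1
          omega
      · have h3 := hT1 e he heX
        omega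
  · intro hn4
    have hν2 : ν = 2 := by
      rw [hν] at hn4
      exact Nat.pow_right_injective (le_refl 2) (by simpa using hn4)
    have hp1 : p ≤ 1 := by omega
    have hr1 : r ≤ 1 := by omega
    constructor
    · intro q hq hq0
      rcases hfib q hq hq0 with h1 | ⟨e, he, heX, -, h1⟩
      · interval_cases p <;> interval_cases r <;> omega
      · have h2 := hT1 e he heX
        have h3 : t = 1 := by omega
        have h4 := (hT2 h3 e he heX).2
        have h5 : p = 1 := by omega
        have h6 : r = 1 := by omega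
        rw [h4, h5, h6] at h1
        omega
    · by_cases hp0 : p = 0
      · left
        have h6 : r = 1 := by omega
        refine ⟨?_, ?_, ?_, ?_⟩
        · rw [ha3, hp0, hν2]; norm_num
        · rw [hb3, h6, hν2]; norm_num
        · apply card_one
          rw [hp, hp0, pow_zero]
        · rw [hr, h6, pow_one]
      · by_cases hr0 : r = 0
        · right
          left
          have h6 : p = 1 := by omega
          refine ⟨?_, ?_, ?_, ?_⟩
          · rw [hb3, hr0, hν2]; norm_num
          · rw [ha3, h6, hν2]; norm_num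
          · apply card_one
            rw [hr, hr0, pow_zero]
          · rw [hp, h6, pow_one]
        · right
          right
          have h5 : p = 1 := by omega
          have h6 : r = 1 := by omega
          have h7 : t = 1 := by omega
          -- the exceptional fibre
          obtain ⟨q0, hq0⟩ : ∃ q0 : E ⧸ X, ∀ e ∈ A ⊓ B, e ∉ X →
              (QuotientAddGroup.mk e : E ⧸ X) = q0 := by
            by_cases hex : ∃ e ∈ A ⊓ B, e ∉ X
            · obtain ⟨e, he, heX⟩ := hex
              refine ⟨QuotientAddGroup.mk e, fun e' he' heX' => ?_⟩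
              rcases (hT2 h7 e he heX).1 e' he' with h8 | h8
              · rw [h8] at heX'
                exact absurd X.zero_mem heX'
              · rw [h8]
            · push Not at hex
              exact ⟨0, fun e he heX => absurd (hex e he) heX⟩
          have hgood : ∀ q ∈ Im X A, q ≠ 0 → q ≠ q0 → 4 ≤ Nf X U q := by
            intro q hq hqz hqq
            rcases hfib q hq hqz with h1 | ⟨e, he, heX, heq, h1⟩
            · rw [h5, h6] at h1
              omega
            · exact absurd (heq.symm.trans (hq0 e he heX)) hqq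
          have hcard : 1 < (((Im X A : AddSubgroup (E ⧸ X)) : Set (E ⧸ X)) \ {0, q0}).ncard := by
            have h8 : ((Im X A : AddSubgroup (E ⧸ X)) : Set (E ⧸ X)).ncard = 4 := by
              show Nat.card (Im X A) = 4
              rw [← hn, hn4]
            have h9 : ({0, q0} : Set (E ⧸ X)).ncard ≤ 2 := Set.ncard_insert_le _ _ |>.trans (by
              rw [Set.ncard_singleton])
            have h10 := Set.ncard_le_ncard_sdiff_add_ncard
              ((Im X A : AddSubgroup (E ⧸ X)) : Set (E ⧸ X)) ({0, q0} : Set (E ⧸ X))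
            omega
          obtain ⟨q₁, q₂, h8, h9, h10⟩ := (Set.one_lt_ncard_iff (Set.toFinite _)).1 hcard
          obtain ⟨g1, g2⟩ := h8
          obtain ⟨g3, g4⟩ := h9
          simp only [Set.mem_insert_iff, Set.mem_singleton_iff, not_or] at g2 g4
          exact ⟨q₁, g1, q₂, g3, g2.1, g4.1, h10, hgood q₁ g1 g2.1 g2.2, hgood q₂ g3 g4.1 g4.2⟩

end Pool.Agent.N88.TS
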