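import Pool.Agent.N88.TS.Stm
import Pool.Agent.R649.ET.Lin

/-! Project TS, LTWO (helper487). -/

set_option autoImplicit false

namespace Pool.Agent.N88.TS

theorem ltwo : S_LTWO := by
  intro E _ _ _ X A B U hAU hBU hX hA hB hcA hcB q hq hq0
  obtain ⟨c, hc, hcq⟩ : ∃ c ∈ A, (QuotientAddGroup.mk c : E ⧸ X) = q := by
    obtain ⟨c, hc, h⟩ := AddSubgroup.mem_map.1 hq
    exact ⟨c, hc, h⟩
  obtain ⟨x, hx, d, hd, hxd⟩ := AddSubgroup.mem_sup.1 (hA hc)
  have hmk : ∀ u v : E, u ∈ X → (QuotientAddGroup.mk (v + u) : E ⧸ X) = QuotientAddGroup.mk v := by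
    intro u v hu
    rw [eq_comm, QuotientAddGroup.eq]
    have : -v + (v + u) = u := by abel
    rw [this]
    exact hu
  have hdq : (QuotientAddGroup.mk d : E ⧸ X) = q := by
    rw [← hcq, ← hxd, add_comm, hmk x d hx]
  have two : ∀ u v : E, u ≠ v → u ∈ U → v ∈ U → (QuotientAddGroup.mk u : E ⧸ X) = q →
      (QuotientAddGroup.mk v : E ⧸ X) = q → 2 ≤ Nf X U q := by
    intro u v huv hu hv hu' hv'
    unfold Nf
    exact (Set.one_lt_ncard (Set.toFinite _)).2 ⟨u, ⟨hu, hu'⟩, v, ⟨hv, hv'⟩, huv⟩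
  by_cases h1 : X ⊓ A = ⊥
  · by_cases h2 : X ⊓ B = ⊥
    · have e1 : X ⊔ A = A ⊔ B := le_antisymm (sup_le hX le_sup_left) (sup_le le_sup_right hB)
      have e2 : X ⊔ B = A ⊔ B := le_antisymm (sup_le hX le_sup_right) (sup_le hA le_sup_right)
      have c1 := Pool.Agent.R649.ETS.card_sup_inf X A
      have c2 := Pool.Agent.R649.ETS.card_sup_inf X B
      have c3 := Pool.Agent.R649.ETS.card_sup_inf A B
      rw [h1, e1, AddSubgroup.card_bot, mul_one] at c1
      rw [h2, e2, AddSubgroup.card_bot, mul_one] at c2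
      have pX : 0 < Nat.card X := Nat.card_pos
      have pA : 0 < Nat.card A := Nat.card_pos
      have pB : 0 < Nat.card B := Nat.card_pos
      rw [c1] at c3
      have c4 : Nat.card X * Nat.card (A ⊓ B : AddSubgroup E) = Nat.card B := by
        have : Nat.card A * (Nat.card X * Nat.card (A ⊓ B : AddSubgroup E)) = Nat.card A * Nat.card B := by
          rw [← c3]
          ring
        exact Nat.eq_of_mul_eq_mul_left pA this
      have c5 : Nat.card (A ⊓ B : AddSubgroup E) ≤ 1 := by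
        by_contra hcon
        push Not at hcon
        have : Nat.card X * 2 ≤ Nat.card X * Nat.card (A ⊓ B : AddSubgroup E) := Nat.mul_le_mul_left _ hcon
        omega
      have hAB : A ⊓ B = ⊥ := by
        rw [← AddSubgroup.card_eq_one]
        have : 0 < Nat.card (A ⊓ B : AddSubgroup E) := Nat.card_pos
        omega
      refine two c d ?_ (hAU hc) (hBU hd) hcq hdq
      intro hcd
      have : c ∈ A ⊓ B := ⟨hc, hcd ▸ hd⟩
      rw [hAB, AddSubgroup.mem_bot] at this
      apply hq0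
      rw [← hcq, this]
      rfl
    · obtain ⟨⟨u, hu⟩, hne⟩ := AddSubgroup.ne_bot_iff_exists_ne_zero.1 h2
      have hu0 : u ≠ 0 := fun h => hne (Subtype.ext h)
      refine two (d + u) d (fun h => hu0 ?_) (hBU (B.add_mem hd hu.2)) (hBU hd) ?_ hdq
      · simpa using h
      · rw [hmk _ _ hu.1, hdq]
  · obtain ⟨⟨u, hu⟩, hne⟩ := AddSubgroup.ne_bot_iff_exists_ne_zero.1 h1
    have hu0 : u ≠ 0 := fun h => hne (Subtype.ext h)
    refine two (c + u) c (fun h => hu0 ?_) (hAU (A.add_mem hc hu.2)) (hAU hc) ?_ hcq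
    · simpa using h
    · rw [hmk _ _ hu.1, hcq]

end Pool.Agent.N88.TS
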