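import Pool.Agent.N88.TS.TightB
import Pool.Agent.N88.TS.Line
import Pool.Agent.N88.TS.Ltwo
import Pool.Agent.N88.TS.Dual
import Pool.Agent.N88.TS.Str

/-! Project TS: the final statements for structures. -/

set_option autoImplicit false

namespace Pool.Agent.N88.TS

open Pool.Agent.W622.ETG Pool.Agent.TH188.ETP Pool.Agent.TH188.ETV Pool.Agent.H315R3.ETC Module

universe v

theorem al' : S_AL := al line ltwo tight'

theorem dual' : S_DUAL := dual al'

theorem str' : S_STR.{v} := str dual'

theorem elem27 (S : QData) (hS : IsQuat S) (hfin : Finite S.G) {B : Type v}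
    [AddCommGroup B] (hB : ∀ b : B, b + b = 0) (β : S.G → S.G → B)
    (hmul : ∀ a b c, β a (b * c) = β a b + β a c)
    (hiff : ∀ a b c d, β a b = β c d ↔ S.q a b = S.q c d)
    (h : ∀ x y z : S.G, SmallG β x y z ∨
      {t : S.Q | ∃ g ∈ Subgroup.closure {x, y, z}, ∃ b, S.q g b = t}.ncard ≤ 27) : Elem S := by
  refine elem_of_good dual' S hS hfin hB β hmul hiff fun x y z => ?_
  rcases h x y z with h | h
  · exact Or.inl h
  · obtain ⟨h1, h2⟩ := Pool.Agent.R649.ETS.vals_ncard β hiff (Subgroup.closure {x, y, z} : Subgroup S.G)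
    exact Or.inr (h2.trans h)

end Pool.Agent.N88.TS
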