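import Pool.Agent.R649.ET.Sixteen

/-! Project TS: statements. -/

set_option autoImplicit false

namespace Pool.Agent.N88.TS

open Pool.Agent.W622.ETG Pool.Agent.TH188.ETP Pool.Agent.TH188.ETV Pool.Agent.H315R3.ETC Module

universe v

/-- the number of elements of `U` in the coset `q` -/
noncomputable def Nf {E : Type} [AddCommGroup E] (X : AddSubgroup E) (U : Set E) (q : E ⧸ X) : ℕ :=
  {u ∈ U | (QuotientAddGroup.mk u : E ⧸ X) = q}.ncard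

/-- the image of `A` in the quotient by `X` -/
def Im {E : Type} [AddCommGroup E] (X A : AddSubgroup E) : AddSubgroup (E ⧸ X) :=
  A.map (QuotientAddGroup.mk' X)

/-- LINE: three subgroups with equal pairwise sums, fibres over the quotient by `X` -/
def S_LINE : Prop :=
  ∀ (E : Type) [AddCommGroup E] [Finite E], (∀ e : E, e + e = 0) →
  ∀ (X A B : AddSubgroup E) (U : Set E), (X : Set E) ⊆ U → (A : Set E) ⊆ U → (B : Set E) ⊆ U →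
    X ≤ A ⊔ B → A ≤ X ⊔ B → B ≤ X ⊔ A → Nat.card X = 8 → Nat.card A ≤ 8 → Nat.card B ≤ 8 →
    (Nat.card (Im X A) = 1 ∨ Nat.card (Im X A) = 2 ∨ Nat.card (Im X A) = 4 ∨
      Nat.card (Im X A) = 8) ∧
    (Nat.card (Im X A) = 2 → ∀ q ∈ Im X A, q ≠ 0 → 4 ≤ Nf X U q ∧
      ((X ⊓ A = ⊥ ∨ X ⊓ B = ⊥) → 5 ≤ Nf X U q)) ∧
    (Nat.card (Im X A) = 4 → (∀ q ∈ Im X A, q ≠ 0 → 3 ≤ Nf X U q) ∧
      ((Nat.card A = 4 ∧ Nat.card B = 8 ∧ X ⊓ A = ⊥ ∧ Nat.card (X ⊓ B : AddSubgroup E) = 2) ∨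
       (Nat.card B = 4 ∧ Nat.card A = 8 ∧ X ⊓ B = ⊥ ∧ Nat.card (X ⊓ A : AddSubgroup E) = 2) ∨
       ∃ q₁ ∈ Im X A, ∃ q₂ ∈ Im X A, q₁ ≠ 0 ∧ q₂ ≠ 0 ∧ q₁ ≠ q₂ ∧ 4 ≤ Nf X U q₁ ∧ 4 ≤ Nf X U q₂))

/-- LTWO: all fibres have at least two elements if `X` is the largest of the three subgroups -/
def S_LTWO : Prop :=
  ∀ (E : Type) [AddCommGroup E] [Finite E], (∀ e : E, e + e = 0) →
  ∀ (X A B : AddSubgroup E) (U : Set E), (A : Set E) ⊆ U → (B : Set E) ⊆ U →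
    X ≤ A ⊔ B → A ≤ X ⊔ B → B ≤ X ⊔ A → Nat.card A ≤ Nat.card X → Nat.card B ≤ Nat.card X →
    ∀ q ∈ Im X A, q ≠ 0 → 2 ≤ Nf X U q

/-- TIGHT: two lines through `X` with a common fibre with three elements -/
def S_TIGHT : Prop :=
  ∀ (E : Type) [AddCommGroup E] [Finite E], (∀ e : E, e + e = 0) →
  ∀ (X A₁ B₁ A₂ B₂ C D : AddSubgroup E) (U : Set E), (A₁ : Set E) ⊆ U → (B₁ : Set E) ⊆ U →
    (A₂ : Set E) ⊆ U → (B₂ : Set E) ⊆ U →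
    X ≤ A₁ ⊔ B₁ → A₁ ≤ X ⊔ B₁ → B₁ ≤ X ⊔ A₁ → X ≤ A₂ ⊔ B₂ → A₂ ≤ X ⊔ B₂ → B₂ ≤ X ⊔ A₂ →
    C ≤ A₁ ⊔ A₂ → D ≤ A₁ ⊔ B₂ → D ≤ B₁ ⊔ A₂ →
    Nat.card X = 8 → Nat.card A₁ = 4 → Nat.card B₁ = 8 → Nat.card A₂ = 4 → Nat.card B₂ = 8 →
    X ⊓ A₁ = ⊥ → Nat.card (X ⊓ B₁ : AddSubgroup E) = 2 →
    X ⊓ A₂ = ⊥ → Nat.card (X ⊓ B₂ : AddSubgroup E) = 2 →
    8 ≤ Nat.card (Im X A₁ ⊔ Im X A₂ : AddSubgroup (E ⧸ X)) →
    (∃ q ∈ Im X A₁, q ∈ Im X A₂ ∧ q ≠ 0 ∧ Nf X U q ≤ 3) →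
    (X ⊓ C = ⊥ ∧ Nat.card (B₁ ⊔ B₂ : AddSubgroup E) ≤ 16) ∨
    (X ⊓ D = ⊥ ∧ Nat.card (B₁ ⊔ A₂ : AddSubgroup E) ≤ 16)

/-- the abstract lemma: seven subgroups indexed by the points of the Fano plane -/
def S_AL : Prop :=
  ∀ (E : Type) [AddCommGroup E] [Finite E], (∀ e : E, e + e = 0) →
  ∀ (X : ZMod 2 × ZMod 2 × ZMod 2 → AddSubgroup E) (θ : E),
    (∀ p q, X (p + q) ≤ X p ⊔ X q) → (∀ p q, θ ∉ X p ⊔ X q) →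
    θ ∈ X (1, 0, 0) ⊔ X (0, 1, 0) ⊔ X (0, 0, 1) → (∃ p, 4 < Nat.card (X p)) →
    28 ≤ (⋃ p, (X p : Set E)).ncard

/-- the values of the members of `A` with a slot in `⟨x,y,z⟩` -/
def vals {V : Type} [AddCommGroup V] [Module (ZMod 2) V] (A : Fam V) (x y z : V) :
    Set (A → ZMod 2) :=
  {t | ∃ (i j k : ZMod 2) (b : V), t = fun ω => ω.1 (i • x + j • y + k • z) b}

/-- DUAL -/
def S_DUAL : Prop :=
  ∀ (V : Type) [AddCommGroup V] [Module (ZMod 2) V] [Finite V] (A : Fam V), Linked A →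
    ∀ x y z : V, (vals A x y z).ncard ≤ 27 → PlaneAt A x y z

/-- STR -/
def S_STR : Prop :=
  ∀ (S : QData), IsQuat S → Finite S.G → ∀ {B : Type v} [AddCommGroup B],
    (∀ b : B, b + b = 0) → ∀ (β : S.G → S.G → B),
    (∀ a b c, β a (b * c) = β a b + β a c) →
    (∀ a b c d, β a b = β c d ↔ S.q a b = S.q c d) →
    (∀ x y z : S.G, {t : S.Q | ∃ g ∈ Subgroup.closure {x, y, z}, ∃ b, S.q g b = t}.ncard ≤ 27 ∨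
      ∀ p : S.G, p = x ∨ p = y ∨ p = z ∨ p = x * y * z → {t : S.Q | ∃ b, S.q p b = t}.ncard ≤ 4) →
    Elem S

end Pool.Agent.N88.TS
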