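import Pool.Agent.N88.TS.Stm

set_option autoImplicit false

/-! Project TS: two lines through `X` with a common fibre with three elements. -/

namespace Pool.Agent.N88.TS

open Pool.Agent.R649.ETS

namespace TightAux

variable {E : Type} [AddCommGroup E]

theorem card_im (X W : AddSubgroup E) :
    Nat.card (Im X W) * Nat.card (X ⊓ W : AddSubgroup E) = Nat.card W := by
  have h1 := AddSubgroup.relIndex_ker W (QuotientAddGroup.mk' X)
  rw [QuotientAddGroup.ker_mk'] at h1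
  have h2 := card_mul_rel (inf_le_right : X ⊓ W ≤ W)
  rw [AddSubgroup.inf_relIndex_right, h1, mul_comm] at h2
  exact h2

theorem mk_eq (X : AddSubgroup E) (hE : ∀ e : E, e + e = 0) {a b : E} :
    ((QuotientAddGroup.mk a : E ⧸ X) = QuotientAddGroup.mk b) ↔ a + b ∈ X := by
  rw [QuotientAddGroup.eq]
  have : -a = a := neg_eq_of_add_eq_zero_left (hE a)
  rw [this]

theorem mem_im {X A : AddSubgroup E} {q : E ⧸ X} (h : q ∈ Im X A) :
    ∃ a ∈ A, (QuotientAddGroup.mk a : E ⧸ X) = q := by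
  obtain ⟨a, ha, h⟩ := h
  exact ⟨a, ha, h⟩

/-- the data of one line through `X` at the fibre of `q` -/
theorem fibre (hE : ∀ e : E, e + e = 0) [Finite E] (X A B : AddSubgroup E) (U : Set E)
    (hAU : (A : Set E) ⊆ U) (hBU : (B : Set E) ⊆ U) (h1 : X ≤ A ⊔ B) (h2 : A ≤ X ⊔ B)
    (h3 : B ≤ X ⊔ A) (hX : Nat.card X = 8) (hA : Nat.card A = 4) (hB : Nat.card B = 8)
    (hXA : X ⊓ A = ⊥) (hXB : Nat.card (X ⊓ B : AddSubgroup E) = 2) (q : E ⧸ X)
    (hq : q ∈ Im X A) (hq0 : q ≠ 0) (hN : Nf X U q ≤ 3) :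
    ∃ c d u : E, c ∈ A ∧ d ∈ B ∧ u ∈ X ∧ u ∈ B ∧ u ≠ 0 ∧ (∀ x ∈ X, x ∈ B → x = 0 ∨ x = u) ∧
      c ≠ 0 ∧ c ≠ d ∧ c ≠ d + u ∧ c ∉ X ∧ d ∉ X ∧ A ⊓ B = ⊥ ∧
      {u ∈ U | (QuotientAddGroup.mk u : E ⧸ X) = q} = {c, d, d + u} := by
  -- the intersection of `A` and `B`
  have hs : X ⊔ A = A ⊔ B := by
    apply le_antisymm
    · exact sup_le h1 le_sup_left
    · exact sup_le le_sup_right h3
  have hAB : A ⊓ B = ⊥ := by
    have e1 := card_sup_inf X A
    have e2 := card_sup_inf A B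
    rw [hXA, AddSubgroup.card_bot, hX, hA] at e1
    rw [← hs, hA, hB] at e2
    rw [mul_one] at e1
    rw [e1] at e2
    have e3 : Nat.card (A ⊓ B : AddSubgroup E) = 1 := by omega
    exact AddSubgroup.eq_bot_of_card_eq _ e3
  obtain ⟨c, hc, hcq⟩ := mem_im hq
  obtain ⟨x, hx, d, hd, hxd⟩ := AddSubgroup.mem_sup.1 (h2 hc)
  have hdq : (QuotientAddGroup.mk d : E ⧸ X) = q := by
    rw [← hcq, mk_eq X hE, ← hxd]
    have : d + (x + d) = x := by
      calc d + (x + d) = x + (d + d) := by abel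
        _ = x := by rw [hE, add_zero]
    rw [this]
    exact hx
  -- the nonzero element of the intersection of `X` and `B`
  obtain ⟨u, hu0, huall⟩ : ∃ u ∈ X ⊓ B, u ≠ 0 ∧ ∀ x ∈ X ⊓ B, x = 0 ∨ x = u := by
    have e1 : ((X ⊓ B : AddSubgroup E) : Set E).ncard = 2 := hXB
    obtain ⟨a, b, hab, hset⟩ := Set.ncard_eq_two.1 e1
    have h0 : (0 : E) ∈ ((X ⊓ B : AddSubgroup E) : Set E) := (X ⊓ B).zero_mem
    rw [hset] at h0
    rcases h0 with h0 | h0
    · refine ⟨b, ?_, ?_, ?_⟩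
      · have : b ∈ ((X ⊓ B : AddSubgroup E) : Set E) := by rw [hset]; simp
        exact this
      · rw [h0]; exact Ne.symm hab
      · intro x hx
        have : x ∈ ((X ⊓ B : AddSubgroup E) : Set E) := hx
        rw [hset] at this
        rcases this with h | h
        · left; rw [h, h0]
        · right; exact h
    · rw [Set.mem_singleton_iff] at h0
      refine ⟨a, ?_, ?_, ?_⟩
      · have : a ∈ ((X ⊓ B : AddSubgroup E) : Set E) := by rw [hset]; simp
        exact this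
      · rw [h0]; exact hab
      · intro x hx
        have : x ∈ ((X ⊓ B : AddSubgroup E) : Set E) := hx
        rw [hset] at this
        rcases this with h | h
        · right; exact h
        · left
          rw [Set.mem_singleton_iff] at h
          rw [h, h0]
  obtain ⟨hune, huall⟩ := huall
  have huX : u ∈ X := (AddSubgroup.mem_inf.1 hu0).1
  have huB : u ∈ B := (AddSubgroup.mem_inf.1 hu0).2
  have hnX : ∀ a : E, (QuotientAddGroup.mk a : E ⧸ X) = q → a ∉ X := by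
    intro a ha haX
    exact hq0 (by rw [← ha]; exact (QuotientAddGroup.eq_zero_iff a).2 haX)
  have hcX := hnX c hcq
  have hdX := hnX d hdq
  have hc0 : c ≠ 0 := fun h => hcX (h ▸ X.zero_mem)
  have hcB : c ∉ B := by
    intro h
    have : c ∈ A ⊓ B := ⟨hc, h⟩
    rw [hAB] at this
    exact hc0 (AddSubgroup.mem_bot.1 this)
  have hcd : c ≠ d := fun h => hcB (h ▸ hd)
  have hcdu : c ≠ d + u := fun h => hcB (h ▸ B.add_mem hd huB)
  have hddu : d ≠ d + u := fun h => hune (by simpa using h.symm)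
  refine ⟨c, d, u, hc, hd, huX, huB, hune, fun x hx hx' => huall x ⟨hx, hx'⟩, hc0, hcd, hcdu,
    hcX, hdX, hAB, ?_⟩
  symm
  refine Set.eq_of_subset_of_ncard_le ?_ ?_ (Set.toFinite _)
  · rintro y (rfl | rfl | rfl)
    · exact ⟨hAU hc, hcq⟩
    · exact ⟨hBU hd, hdq⟩
    · refine ⟨hBU (B.add_mem hd huB), ?_⟩
      rw [← hdq, mk_eq X hE]
      have : d + u + d = u := by
        calc d + u + d = u + (d + d) := by abel
          _ = u := by rw [hE, add_zero]
      rw [this]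
      exact huX
  · have e1 : ({c, d, d + u} : Set E).ncard = 3 :=
      Set.ncard_eq_three.2 ⟨c, d, d + u, hcd, hcdu, hddu, rfl⟩
    rw [e1]
    exact hN

/-- a subgroup with a nonzero element has at least two elements -/
theorem two_le_card [Finite E] (H : AddSubgroup E) (a : E) (ha : a ∈ H) (h0 : a ≠ 0) :
    2 ≤ Nat.card H := by
  by_contra hcon
  have h1 : 0 < Nat.card H := Nat.card_pos
  have h2 : Nat.card H = 1 := by omega
  rw [AddSubgroup.eq_bot_of_card_eq H h2] at ha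
  exact h0 (AddSubgroup.mem_bot.1 ha)

/-- a subgroup with three elements has at least four -/
theorem four_le_card [Finite E] (hE : ∀ e : E, e + e = 0) (H : AddSubgroup E) (a b : E)
    (ha : a ∈ H) (hb : b ∈ H) (ha0 : a ≠ 0) (hb0 : b ≠ 0) (hab : a ≠ b) :
    4 ≤ Nat.card H := by
  have e1 : ({0, a, b} : Set E).ncard = 3 :=
    Set.ncard_eq_three.2 ⟨0, a, b, Ne.symm ha0, Ne.symm hb0, hab, rfl⟩
  have e2 : ({0, a, b} : Set E).ncard ≤ (H : Set E).ncard := by
    refine Set.ncard_le_ncard ?_ (Set.toFinite _)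
    rintro y (rfl | rfl | rfl)
    · exact H.zero_mem
    · exact ha
    · exact hb
  have e3 : (H : Set E).ncard = Nat.card H := rfl
  obtain ⟨n, hn⟩ := Pool.Agent.R649.ETS.pow_two hE H
  rw [e1, e3, hn] at e2
  rw [hn]
  match n with
  | 0 => norm_num at e2
  | 1 => norm_num at e2
  | n + 2 =>
    have : 1 ≤ 2 ^ n := Nat.one_le_two_pow
    rw [pow_add]
    omega

/-- the second case -/
theorem case2 [Finite E] (hE : ∀ e : E, e + e = 0) (X A B : AddSubgroup E) (a u : E)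
    (haA : a ∈ A) (haB : a ∈ B) (ha0 : a ≠ 0) (huX : u ∈ X) (huB : u ∈ B) (hu0 : u ≠ 0)
    (hA : Nat.card A = 4) (hB : Nat.card B = 8) (him : 8 ≤ Nat.card (Im X (A ⊔ B))) :
    Nat.card (A ⊔ B : AddSubgroup E) ≤ 16 ∧ ∀ x ∈ X, x ∈ A ⊔ B → x = 0 ∨ x = u := by
  have e1 := card_sup_inf A B
  have e2 := two_le_card (A ⊓ B) a ⟨haA, haB⟩ ha0
  rw [hA, hB] at e1
  have e3 : Nat.card (A ⊔ B : AddSubgroup E) ≤ 16 := by
    by_contra hcon
    push Not at hcon
    nlinarith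
  refine ⟨e3, ?_⟩
  intro x hx hx'
  have e4 := card_im X (A ⊔ B)
  have e5 : Nat.card (X ⊓ (A ⊔ B) : AddSubgroup E) ≤ 2 := by
    by_contra hcon
    push Not at hcon
    nlinarith
  by_contra hcon
  push Not at hcon
  have huS : u ∈ X ⊓ (A ⊔ B) := ⟨huX, (le_sup_right : B ≤ A ⊔ B) huB⟩
  have e6 := four_le_card hE (X ⊓ (A ⊔ B)) x u ⟨hx, hx'⟩ huS hcon.1 hu0 hcon.2
  omega

/-- the images of `A` and `B` agree -/
theorem im_eq (X A B : AddSubgroup E) (h2 : A ≤ X ⊔ B) (h3 : B ≤ X ⊔ A) : Im X A = Im X B := by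
  have key : ∀ P Q : AddSubgroup E, P ≤ X ⊔ Q → Im X P ≤ Im X Q := by
    intro P Q h q hq
    obtain ⟨a, ha, rfl⟩ := hq
    obtain ⟨x, hx, y, hy, hxy⟩ := AddSubgroup.mem_sup.1 (h ha)
    refine ⟨y, hy, ?_⟩
    rw [← hxy, map_add]
    have : (QuotientAddGroup.mk' X) x = 0 := (QuotientAddGroup.eq_zero_iff x).2 hx
    rw [this, zero_add]
  exact le_antisymm (key A B h2) (key B A h3)

theorem im_sup (X A B : AddSubgroup E) : Im X (A ⊔ B) = Im X A ⊔ Im X B :=
  AddSubgroup.map_sup A B _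

end TightAux

open TightAux in
theorem tight : S_TIGHT := by
  intro E _ _ hE X A₁ B₁ A₂ B₂ C D U hA1U hB1U hA2U hB2U h1 h2 h3 h4 h5 h6 hC hD hD' hX hA1 hB1
    hA2 hB2 hXA1 hXB1 hXA2 hXB2 him ⟨q, hq1, hq2, hq0, hN⟩
  obtain ⟨c₁, d₁, u₁, hc1, hd1, hu1X, hu1B, hu10, hu1all, hc10, hc1d1, hc1du1, hc1X, hd1X, hAB1,
    hF1⟩ := fibre hE X A₁ B₁ U hA1U hB1U h1 h2 h3 hX hA1 hB1 hXA1 hXB1 q hq1 hq0 hN
  obtain ⟨c₂, d₂, u₂, hc2, hd2, hu2X, hu2B, hu20, hu2all, hc20, hc2d2, hc2du2, hc2X, hd2X, hAB2,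
    hF2⟩ := fibre hE X A₂ B₂ U hA2U hB2U h4 h5 h6 hX hA2 hB2 hXA2 hXB2 q hq2 hq0 hN
  have hF : ({c₁, d₁, d₁ + u₁} : Set E) = {c₂, d₂, d₂ + u₂} := by rw [← hF1, hF2]
  have hs1 : ∀ d : E, d + u₁ + u₁ = d := fun d => by rw [add_assoc, hE, add_zero]
  have hs2 : ∀ d : E, d + u₂ + u₂ = d := fun d => by rw [add_assoc, hE, add_zero]
  by_cases hcc : c₂ = c₁
  · -- first case
    left
    subst hcc
    have hd2m : d₂ ∈ ({c₂, d₁, d₁ + u₁} : Set E) := by rw [hF]; simp
    have hd2m' : d₂ + u₂ ∈ ({c₂, d₁, d₁ + u₁} : Set E) := by rw [hF]; simp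
    have hd1B2 : d₁ ∈ B₂ ∧ u₁ ∈ B₂ := by
      simp only [Set.mem_insert_iff, Set.mem_singleton_iff] at hd2m hd2m'
      have hne : d₂ ≠ d₂ + u₂ := fun h => hu20 (by simpa using h.symm)
      have hdu2B : d₂ + u₂ ∈ B₂ := B₂.add_mem hd2 hu2B
      rcases hd2m with h | h | h
      · exact absurd h.symm hc2d2
      · rcases hd2m' with h' | h' | h'
        · exact absurd h'.symm hc2du2
        · exact absurd (h.trans h'.symm) hne
        · have e1 : d₁ ∈ B₂ := h ▸ hd2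
          refine ⟨e1, ?_⟩
          have e2 : d₁ + u₁ ∈ B₂ := h' ▸ hdu2B
          have e3 := B₂.add_mem e1 e2
          rwa [← add_assoc, hE, zero_add] at e3
      · rcases hd2m' with h' | h' | h'
        · exact absurd h'.symm hc2du2
        · have e1 : d₁ ∈ B₂ := h' ▸ hdu2B
          refine ⟨e1, ?_⟩
          have e2 : d₁ + u₁ ∈ B₂ := h ▸ hd2
          have e3 := B₂.add_mem e1 e2
          rwa [← add_assoc, hE, zero_add] at e3
        · exact absurd (h.trans h'.symm) hne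
    have hd10 : d₁ ≠ 0 := fun h => hd1X (h ▸ X.zero_mem)
    have hd1u1 : d₁ ≠ u₁ := fun h => hd1X (h ▸ hu1X)
    have f1 := four_le_card hE (B₁ ⊓ B₂) d₁ u₁ ⟨hd1, hd1B2.1⟩ ⟨hu1B, hd1B2.2⟩ hd10 hu10 hd1u1
    have f2 := card_sup_inf B₁ B₂
    rw [hB1, hB2] at f2
    have f3 : Nat.card (B₁ ⊔ B₂ : AddSubgroup E) ≤ 16 := by
      by_contra hcon
      push Not at hcon
      nlinarith
    refine ⟨?_, f3⟩
    have g1 := two_le_card (A₁ ⊓ A₂) c₂ ⟨hc1, hc2⟩ hc10
    have g2 := card_sup_inf A₁ A₂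
    rw [hA1, hA2] at g2
    have g3 : Nat.card (A₁ ⊔ A₂ : AddSubgroup E) ≤ 8 := by
      by_contra hcon
      push Not at hcon
      nlinarith
    have g4 := card_im X (A₁ ⊔ A₂)
    rw [im_sup] at g4
    have g5 : 0 < Nat.card (X ⊓ (A₁ ⊔ A₂) : AddSubgroup E) := Nat.card_pos
    have g6 : Nat.card (X ⊓ (A₁ ⊔ A₂) : AddSubgroup E) = 1 := by
      by_contra hcon
      have : 2 ≤ Nat.card (X ⊓ (A₁ ⊔ A₂) : AddSubgroup E) := by omega
      nlinarith
    have g7 : X ⊓ (A₁ ⊔ A₂) = ⊥ := AddSubgroup.eq_bot_of_card_eq _ g6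
    exact le_bot_iff.1 (g7 ▸ inf_le_inf_left X hC)
  · -- second case
    right
    -- choose the element `e₁` of the fibre of `B₁` with `c₂ = e₁`
    have hc2m : c₂ ∈ ({c₁, d₁, d₁ + u₁} : Set E) := by rw [hF]; simp
    have hc1m : c₁ ∈ ({c₂, d₂, d₂ + u₂} : Set E) := by rw [← hF]; simp
    simp only [Set.mem_insert_iff, Set.mem_singleton_iff] at hc2m hc1m
    have hc2B1 : c₂ ∈ B₁ := by
      rcases hc2m with h | h | h
      · exact absurd h hcc
      · rw [h]; exact hd1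
      · rw [h]; exact B₁.add_mem hd1 hu1B
    have hc1B2 : c₁ ∈ B₂ := by
      rcases hc1m with h | h | h
      · exact absurd h.symm hcc
      · rw [h]; exact hd2
      · rw [h]; exact B₂.add_mem hd2 hu2B
    -- the third element of the fibre is `c₂ + u₁ = c₁ + u₂`
    have hF1' : ({c₁, d₁, d₁ + u₁} : Set E) = {c₁, c₂, c₂ + u₁} := by
      rcases hc2m with h | h | h
      · exact absurd h hcc
      · rw [h]
      · rw [h, hs1]
        ext y
        simp only [Set.mem_insert_iff, Set.mem_singleton_iff]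
        tauto
    have hF2' : ({c₂, d₂, d₂ + u₂} : Set E) = {c₂, c₁, c₁ + u₂} := by
      rcases hc1m with h | h | h
      · exact absurd h.symm hcc
      · rw [h]
      · rw [h, hs2]
        ext y
        simp only [Set.mem_insert_iff, Set.mem_singleton_iff]
        tauto
    have hthird : c₂ + u₁ = c₁ + u₂ := by
      have h7 : c₂ + u₁ ∈ ({c₂, c₁, c₁ + u₂} : Set E) := by
        rw [← hF2', ← hF, hF1']; simp
      simp only [Set.mem_insert_iff, Set.mem_singleton_iff] at h7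
      rcases h7 with h | h | h
      · exact absurd (by simpa using h) hu10
      · exfalso
        have : c₁ ∈ A₁ ⊓ B₁ := ⟨hc1, h ▸ B₁.add_mem hc2B1 hu1B⟩
        rw [hAB1] at this
        exact hc10 (AddSubgroup.mem_bot.1 this)
      · exact h
    have hune : u₁ ≠ u₂ := by
      intro h
      rw [h] at hthird
      exact hcc (add_right_cancel hthird)
    have him2 : 8 ≤ Nat.card (Im X (A₁ ⊔ B₂)) := by
      rw [im_sup, ← im_eq X A₂ B₂ h5 h6]; exact him
    have him1 : 8 ≤ Nat.card (Im X (A₂ ⊔ B₁)) := by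
      rw [im_sup, ← im_eq X A₁ B₁ h2 h3, sup_comm]; exact him
    have k1 := case2 hE X A₁ B₂ c₁ u₂ hc1 hc1B2 hc10 hu2X hu2B hu20 hA1 hB2 him2
    have k2 := case2 hE X A₂ B₁ c₂ u₁ hc2 hc2B1 hc20 hu1X hu1B hu10 hA2 hB1 him1
    refine ⟨?_, by rw [sup_comm]; exact k2.1⟩
    rw [eq_bot_iff]
    intro x hx
    obtain ⟨hxX, hxD⟩ := AddSubgroup.mem_inf.1 hx
    rw [AddSubgroup.mem_bot]
    rcases k1.2 x hxX (hD hxD) with h | h
    · exact h
    · rcases k2.2 x hxX (by rw [sup_comm]; exact hD' hxD) with h' | h'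
      · exact h'
      · exact absurd (h'.symm.trans h) hune

end Pool.Agent.N88.TS
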