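import Pool.Agent.N88.TS.Al

/-! TIGHT -/

set_option autoImplicit false

namespace Pool.Agent.N88.TS

open Pool.Agent.R649.ETS

section
variable {E : Type} [AddCommGroup E] [Finite E]

lemma eq_of_le_two {Y : AddSubgroup E} (h2 : Nat.card Y ≤ 2) {s r : E} (hs : s ∈ Y) (hr : r ∈ Y)
    (hs0 : s ≠ 0) (hr0 : r ≠ 0) : s = r := by
  by_contra hne
  have h3 : ({0, s, r} : Set E) ⊆ (Y : Set E) := by
    rintro x (rfl | rfl | rfl)
    · exact Y.zero_mem
    · exact hs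
    · exact hr
  have h4 : ({0, s, r} : Set E).ncard = 3 := by
    rw [Set.ncard_eq_three]
    exact ⟨0, s, r, fun h => hs0 h.symm, fun h => hr0 h.symm, hne, rfl⟩
  have h5 := Set.ncard_le_ncard h3 (Set.toFinite _)
  rw [h4] at h5
  have h6 : (Y : Set E).ncard ≤ 2 := h2
  omega

lemma two_le {Y : AddSubgroup E} {s : E} (hs : s ∈ Y) (hs0 : s ≠ 0) : 2 ≤ Nat.card Y := by
  by_contra h
  have h1 : Nat.card Y = 1 := by
    have : 0 < Nat.card Y := Nat.card_pos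
    omega
  have := AddSubgroup.eq_bot_of_card_eq Y h1
  rw [this] at hs
  exact hs0 hs

lemma four_le (exE : ∀ e : E, e + e = 0) {Y : AddSubgroup E} {s r : E} (hs : s ∈ Y) (hr : r ∈ Y)
    (hs0 : s ≠ 0) (hr0 : r ≠ 0) (hne : s ≠ r) : 4 ≤ Nat.card Y := by
  obtain ⟨n, hn⟩ := pow_two exE Y
  have h3 : ¬ Nat.card Y ≤ 2 := fun h => hne (eq_of_le_two h hs hr hs0 hr0)
  rcases n with _ | _ | n
  · rw [hn] at h3; norm_num at h3
  · rw [hn] at h3; norm_num at h3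
  · rw [hn]
    calc 4 = 2 ^ 2 := by norm_num
      _ ≤ 2 ^ (n + 1 + 1) := Nat.pow_le_pow_right (by norm_num) (by omega)

lemma capW {X W : AddSubgroup E} (hX : Nat.card X = 8) (h8 : 8 ≤ Nat.card (Im X W)) :
    8 * Nat.card (X ⊓ W : AddSubgroup E) ≤ Nat.card W := by
  have c1 := card_Im X W
  have c2 := card_sup_inf X W
  rw [hX] at c1 c2
  have h64 : 64 ≤ Nat.card (X ⊔ W : AddSubgroup E) := by omega
  have := Nat.mul_le_mul_right (Nat.card (X ⊓ W : AddSubgroup E)) h64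
  omega

lemma bot_of {X W : AddSubgroup E} (h : Nat.card (X ⊓ W : AddSubgroup E) ≤ 1) : X ⊓ W = ⊥ := by
  have : 0 < Nat.card (X ⊓ W : AddSubgroup E) := Nat.card_pos
  exact AddSubgroup.eq_bot_of_card_eq _ (by omega)

lemma inf_AB {X A B : AddSubgroup E} (x : X ≤ A ⊔ B) (b : B ≤ X ⊔ A)
    (hX : Nat.card X = 8) (hA : Nat.card A = 4) (hB : Nat.card B = 8) (iA : X ⊓ A = ⊥) :
    A ⊓ B = ⊥ := by
  have e : A ⊔ B = X ⊔ A := le_antisymm (sup_le le_sup_right b) (sup_le x le_sup_left)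
  have c1 := card_sup_inf X A
  have c2 := card_sup_inf A B
  rw [iA, AddSubgroup.card_bot, hX, hA] at c1
  rw [e, hA, hB] at c2
  have h : Nat.card (X ⊔ A : AddSubgroup E) = 32 := by omega
  rw [h] at c2
  exact bot_of (by omega)

/-- the fibre of a line -/
lemma fib (exE : ∀ e : E, e + e = 0) {X A B : AddSubgroup E} {U : Set E}
    (uA : (A : Set E) ⊆ U) (uB : (B : Set E) ⊆ U) (x : X ≤ A ⊔ B) (a : A ≤ X ⊔ B) (b : B ≤ X ⊔ A)
    (hX : Nat.card X = 8) (hA : Nat.card A = 4) (hB : Nat.card B = 8) (iA : X ⊓ A = ⊥)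
    (iB : Nat.card (X ⊓ B : AddSubgroup E) = 2) {q : E ⧸ X} (hq : q ∈ Im X A) (hq0 : q ≠ 0)
    (h3 : Nf X U q ≤ 3) :
    ∃ c ∈ A, ∃ u ∈ B, ∃ d ∈ B, u ∈ X ∧ u ≠ 0 ∧ c ≠ 0 ∧ c ∉ B ∧
      (QuotientAddGroup.mk c : E ⧸ X) = q ∧ (QuotientAddGroup.mk d : E ⧸ X) = q ∧
      {v ∈ U | (QuotientAddGroup.mk v : E ⧸ X) = q} = {c, d, d + u} := by
  have iAB := inf_AB x b hX hA hB iA
  obtain ⟨c, hc, hcq⟩ := hq
  have hq' : q ∈ Im X B := Im_le a ⟨c, hc, hcq⟩
  obtain ⟨d, hd, hdq⟩ := hq'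
  obtain ⟨u, hu, hu0⟩ := ex_ne iB
  have hcq' : (QuotientAddGroup.mk c : E ⧸ X) = q := hcq
  have hdq' : (QuotientAddGroup.mk d : E ⧸ X) = q := hdq
  have hduq : (QuotientAddGroup.mk (d + u) : E ⧸ X) = q := by
    rw [QuotientAddGroup.mk_add, hdq', (QuotientAddGroup.eq_zero_iff u).2 hu.1, add_zero]
  have hc0 : c ≠ 0 := by
    rintro rfl
    exact hq0 hcq'.symm
  have hcB : c ∉ B := fun h => hc0 (by
    have : c ∈ A ⊓ B := ⟨hc, h⟩
    rw [iAB] at this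
    exact this)
  have hne1 : c ≠ d := fun h => hcB (h ▸ hd)
  have hne2 : c ≠ d + u := fun h => hcB (h ▸ B.add_mem hd hu.2)
  have hne3 : d ≠ d + u := fun h => hu0 (left_eq_add.1 h)
  refine ⟨c, hc, u, hu.2, d, hd, hu.1, hu0, hc0, hcB, hcq', hdq', ?_⟩
  symm
  refine Set.eq_of_subset_of_ncard_le ?_ ?_ (Set.toFinite _)
  · rintro v (rfl | rfl | rfl)
    · exact ⟨uA hc, hcq'⟩
    · exact ⟨uB hd, hdq'⟩
    · exact ⟨uB (B.add_mem hd hu.2), hduq⟩
  · have : ({c, d, d + u} : Set E).ncard = 3 := by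
      rw [Set.ncard_eq_three]
      exact ⟨c, d, d + u, hne1, hne2, hne3, rfl⟩
    rw [this]
    exact h3

theorem tight' : S_TIGHT := by
  intro E _ _ exE X A₁ B₁ A₂ B₂ C D U uA1 uB1 uA2 uB2 x1 a1 b1 x2 a2 b2 hC hD1 hD2 cX cA1 cB1
    cA2 cB2 iA1 iB1 iA2 iB2 h8
  rintro ⟨q, hq1, hq2, hq0, hq3⟩
  obtain ⟨c1, hc1, u1, hu1, d1, hd1, hu1X, hu10, hc10, hc1B, hc1q, hd1q, F1⟩ :=
    fib exE uA1 uB1 x1 a1 b1 cX cA1 cB1 iA1 iB1 hq1 hq0 hq3
  obtain ⟨c2, hc2, u2, hu2, d2, hd2, hu2X, hu20, hc20, hc2B, hc2q, hd2q, F2⟩ :=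
    fib exE uA2 uB2 x2 a2 b2 cX cA2 cB2 iA2 iB2 hq2 hq0 hq3
  have F : ({c1, d1, d1 + u1} : Set E) = {c2, d2, d2 + u2} := F1.symm.trans F2
  have hmem : ∀ v, (v = c1 ∨ v = d1 ∨ v = d1 + u1) ↔ (v = c2 ∨ v = d2 ∨ v = d2 + u2) := by
    intro v
    have := Set.ext_iff.1 F v
    simpa using this
  have iB1' : Im X B₁ = Im X A₁ := le_antisymm (Im_le b1) (Im_le a1)
  have iB2' : Im X B₂ = Im X A₂ := le_antisymm (Im_le b2) (Im_le a2)
  have hd20 : d2 ≠ 0 := by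
    rintro rfl
    exact hq0 hd2q.symm
  by_cases h12 : c1 = c2
  · -- case 1
    left
    subst h12
    have k1 : d2 = d1 ∨ d2 = d1 + u1 := by
      have := (hmem d2).2 (Or.inr (Or.inl rfl))
      rcases this with h | h | h
      · exact absurd (h ▸ hd2) hc2B
      · exact Or.inl h
      · exact Or.inr h
    have k2 : d2 + u2 = d1 ∨ d2 + u2 = d1 + u1 := by
      have := (hmem (d2 + u2)).2 (Or.inr (Or.inr rfl))
      rcases this with h | h | h
      · exact absurd (h ▸ B₂.add_mem hd2 hu2) hc2B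
      · exact Or.inl h
      · exact Or.inr h
    have hu : u2 = u1 := by
      rcases k1 with h | h <;> rcases k2 with h' | h'
      · rw [h] at h'
        exact absurd (add_eq_left.1 h') hu20
      · rw [h] at h'
        exact add_left_cancel h'
      · rw [h, add_assoc] at h'
        have h3 := add_eq_left.1 h'
        have h4 := exE u1
        rw [← h4] at h3
        exact add_left_cancel h3
      · rw [h] at h'
        exact absurd (add_eq_left.1 h') hu20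
    have hd2B : d2 ∈ B₁ := by
      rcases k1 with h | h
      · rw [h]; exact hd1
      · rw [h]; exact B₁.add_mem hd1 hu1
    have hd2X : d2 ≠ u2 := by
      intro h
      apply hq0
      rw [← hd2q, h]
      exact (QuotientAddGroup.eq_zero_iff u2).2 hu2X
    have c4 : 4 ≤ Nat.card (B₁ ⊓ B₂ : AddSubgroup E) :=
      four_le exE (s := d2) (r := u2) ⟨hd2B, hd2⟩ ⟨hu ▸ hu1, hu2⟩ hd20 hu20 hd2X
    have c5 : 2 ≤ Nat.card (A₁ ⊓ A₂ : AddSubgroup E) := two_le ⟨hc1, hc2⟩ hc10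
    have s1 := card_sup_inf B₁ B₂
    have s2 := card_sup_inf A₁ A₂
    rw [cB1, cB2] at s1
    rw [cA1, cA2] at s2
    have s3 := Nat.mul_le_mul_left (Nat.card (B₁ ⊔ B₂ : AddSubgroup E)) c4
    have s4 := Nat.mul_le_mul_left (Nat.card (A₁ ⊔ A₂ : AddSubgroup E)) c5
    have s5 := capW (W := A₁ ⊔ A₂) cX (by rw [Im_sup]; exact h8)
    refine ⟨?_, by omega⟩
    have s6 : X ⊓ (A₁ ⊔ A₂) = ⊥ := bot_of (by omega)
    exact le_bot_iff.1 ((inf_le_inf_left X hC).trans (le_of_eq s6))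
  · -- case 2
    right
    have m1 : c2 = d1 ∨ c2 = d1 + u1 := by
      have := (hmem c2).2 (Or.inl rfl)
      rcases this with h | h | h
      · exact absurd h.symm h12
      · exact Or.inl h
      · exact Or.inr h
    have m2 : c1 = d2 ∨ c1 = d2 + u2 := by
      have := (hmem c1).1 (Or.inl rfl)
      rcases this with h | h | h
      · exact absurd h h12
      · exact Or.inl h
      · exact Or.inr h
    have hc2B1 : c2 ∈ B₁ := by
      rcases m1 with h | h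
      · rw [h]; exact hd1
      · rw [h]; exact B₁.add_mem hd1 hu1
    have hc1B2 : c1 ∈ B₂ := by
      rcases m2 with h | h
      · rw [h]; exact hd2
      · rw [h]; exact B₂.add_mem hd2 hu2
    -- the other element `c2 + u1`
    have m3 : c2 + u1 = d2 ∨ c2 + u1 = d2 + u2 := by
      have h1 : c2 + u1 = c1 ∨ c2 + u1 = d1 ∨ c2 + u1 = d1 + u1 := by
        rcases m1 with h | h
        · right; right; rw [h]
        · right; left; rw [h, add_assoc, exE, add_zero]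
      rcases (hmem _).1 h1 with h | h | h
      · exact absurd (add_eq_left.1 h) hu10
      · exact Or.inl h
      · exact Or.inr h
    have m4 : c1 ≠ c2 + u1 := fun h => hc1B (h ▸ B₁.add_mem hc2B1 hu1)
    have m5 : c1 + (c2 + u1) = u2 := by
      rcases m2 with h | h <;> rcases m3 with h' | h'
      · exact absurd (h.trans h'.symm) m4
      · rw [h, h', ← add_assoc, exE, zero_add]
      · rw [h, h', add_comm d2 u2, add_assoc, exE, add_zero]
      · exact absurd (h.trans h'.symm) m4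
    have hu12 : u1 ≠ u2 := by
      intro h
      rw [← h, ← add_assoc] at m5
      have h1 := add_eq_right.1 m5
      apply h12
      have h2 := exE c2
      rw [← h2] at h1
      exact add_right_cancel h1
    have c5 : 2 ≤ Nat.card (A₁ ⊓ B₂ : AddSubgroup E) := two_le ⟨hc1, hc1B2⟩ hc10
    have c6 : 2 ≤ Nat.card (B₁ ⊓ A₂ : AddSubgroup E) := two_le ⟨hc2B1, hc2⟩ hc20
    have s1 := card_sup_inf A₁ B₂
    have s2 := card_sup_inf B₁ A₂
    rw [cA1, cB2] at s1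
    rw [cB1, cA2] at s2
    have s3 := Nat.mul_le_mul_left (Nat.card (A₁ ⊔ B₂ : AddSubgroup E)) c5
    have s4 := Nat.mul_le_mul_left (Nat.card (B₁ ⊔ A₂ : AddSubgroup E)) c6
    have s5 := capW (W := A₁ ⊔ B₂) cX (by rw [Im_sup, iB2']; exact h8)
    have s6 := capW (W := B₁ ⊔ A₂) cX (by rw [Im_sup, iB1']; exact h8)
    have hu2W : u2 ∈ X ⊓ (A₁ ⊔ B₂) := ⟨hu2X, (le_sup_right : B₂ ≤ A₁ ⊔ B₂) hu2⟩
    have hu1W : u1 ∈ X ⊓ (B₁ ⊔ A₂) := ⟨hu1X, (le_sup_left : B₁ ≤ B₁ ⊔ A₂) hu1⟩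
    refine ⟨?_, by omega⟩
    rw [AddSubgroup.eq_bot_iff_forall]
    intro v hv
    by_contra hv0
    have e1 := eq_of_le_two (by omega) (show v ∈ X ⊓ (A₁ ⊔ B₂) from ⟨hv.1, hD1 hv.2⟩) hu2W hv0 hu20
    have e2 := eq_of_le_two (by omega) (show v ∈ X ⊓ (B₁ ⊔ A₂) from ⟨hv.1, hD2 hv.2⟩) hu1W hv0 hu10
    exact hu12 (e2.symm.trans e1)

end

end Pool.Agent.N88.TS
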