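import Pool.Agent.N88.TS.Stm

/-! Three subgroups `Ya, Yb, Yc` and an element `t` outside their union which lies in the pairwise
sums. -/

set_option autoImplicit false

namespace Pool.Agent.N88.TS

open Pool.Agent.R649.ETS

section
variable {Q : Type} [AddCommGroup Q]

structure Tri (Ya Yb Yc : AddSubgroup Q) (t : Q) : Prop where
  na : t ∉ Ya
  nb : t ∉ Yb
  nc : t ∉ Yc
  ab : t ∈ Ya ⊔ Yb
  ac : t ∈ Ya ⊔ Yc
  bc : t ∈ Yb ⊔ Yc

variable {Ya Yb Yc : AddSubgroup Q} {t : Q}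

lemma Tri.swap12 (h : Tri Ya Yb Yc t) : Tri Yb Ya Yc t :=
  ⟨h.nb, h.na, h.nc, by rw [sup_comm]; exact h.ab, h.bc, h.ac⟩

lemma Tri.swap23 (h : Tri Ya Yb Yc t) : Tri Ya Yc Yb t :=
  ⟨h.na, h.nc, h.nb, h.ac, h.ab, by rw [sup_comm]; exact h.bc⟩

lemma eq_of_two {Y : AddSubgroup Q} (h2 : Nat.card Y = 2) {s r : Q} (hs : s ∈ Y) (hr : r ∈ Y)
    (hs0 : s ≠ 0) (hr0 : r ≠ 0) : s = r := by
  have : Finite Y := Nat.finite_of_card_ne_zero (by omega)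
  by_contra hne
  have h3 : ({0, s, r} : Set Q) ⊆ (Y : Set Q) := by
    rintro x (rfl | rfl | rfl)
    · exact Y.zero_mem
    · exact hs
    · exact hr
  have h4 : ({0, s, r} : Set Q).ncard = 3 := by
    rw [Set.ncard_eq_three]
    exact ⟨0, s, r, fun h => hs0 h.symm, fun h => hr0 h.symm, hne, rfl⟩
  have h5 := Set.ncard_le_ncard h3 (Set.toFinite _)
  rw [h4] at h5
  have h6 : (Y : Set Q).ncard = 2 := h2
  omega

/-- two of the subgroups cannot have two elements -/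
lemma Tri.f1 (h : Tri Ya Yb Yc t) (hQ : ∀ q : Q, q + q = 0) (ha : Nat.card Ya = 2)
    (hb : Nat.card Yb = 2) : False := by
  obtain ⟨s, hs, r, hr, e⟩ := AddSubgroup.mem_sup.1 h.ab
  obtain ⟨s', hs', c, hc, e'⟩ := AddSubgroup.mem_sup.1 h.ac
  obtain ⟨r', hr', c', hc', e''⟩ := AddSubgroup.mem_sup.1 h.bc
  have s0 : s ≠ 0 := by rintro rfl; rw [zero_add] at e; exact h.nb (e ▸ hr)
  have r0 : r ≠ 0 := by rintro rfl; rw [add_zero] at e; exact h.na (e ▸ hs)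
  have s0' : s' ≠ 0 := by rintro rfl; rw [zero_add] at e'; exact h.nc (e' ▸ hc)
  have r0' : r' ≠ 0 := by rintro rfl; rw [zero_add] at e''; exact h.nc (e'' ▸ hc')
  have h1 := eq_of_two ha hs hs' s0 s0'
  have h2 := eq_of_two hb hr hr' r0 r0'
  have h3 : r = c := by
    rw [← h1, ← e] at e'
    exact (add_left_cancel e').symm
  have h4 : s = c' := by
    rw [← h2, ← e, add_comm s r] at e''
    exact (add_left_cancel e'').symm
  apply h.nc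
  rw [← e, h3, h4]
  exact Yc.add_mem hc' hc

lemma Tri.ne_one (h : Tri Ya Yb Yc t) : Nat.card Ya ≠ 1 := by
  intro h1
  have : Ya = ⊥ := AddSubgroup.eq_bot_of_card_eq Ya h1
  have h2 := h.ab
  rw [this, bot_sup_eq] at h2
  exact h.nb h2

lemma Tri.nle (h : Tri Ya Yb Yc t) : ¬ Yb ≤ Ya := by
  intro h1
  have h2 := h.ab
  rw [sup_eq_left.2 h1] at h2
  exact h.na h2

/-- a proper intersection has at most half of the elements -/
lemma half [Finite Q] (Y Z : AddSubgroup Q) (h : ¬ Z ≤ Y) :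
    2 * Nat.card (Z ⊓ Y : AddSubgroup Q) ≤ Nat.card Z := by
  have h1 := card_mul_rel (inf_le_left : Z ⊓ Y ≤ Z)
  have h2 : (Z ⊓ Y).relIndex Z ≠ 1 := by
    intro h3
    have := AddSubgroup.relIndex_eq_one.1 h3
    exact h (this.trans inf_le_right)
  have h3 : (Z ⊓ Y).relIndex Z ≠ 0 := by
    intro h3
    rw [h3, mul_zero] at h1
    have : 0 < Nat.card Z := Nat.card_pos
    omega
  have h4 : 2 ≤ (Z ⊓ Y).relIndex Z := by omega
  calc 2 * Nat.card (Z ⊓ Y : AddSubgroup Q) = Nat.card (Z ⊓ Y : AddSubgroup Q) * 2 := by ring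
    _ ≤ Nat.card (Z ⊓ Y : AddSubgroup Q) * (Z ⊓ Y).relIndex Z := Nat.mul_le_mul_left _ h4
    _ = Nat.card Z := h1

/-- a subgroup not contained in two others is not covered by them -/
lemma outside (h1 : ¬ Yc ≤ Ya) (h2 : ¬ Yc ≤ Yb) : ∃ x ∈ Yc, x ∉ Ya ∧ x ∉ Yb := by
  by_contra hcon
  push Not at hcon
  obtain ⟨u, hu, hua⟩ := SetLike.not_le_iff_exists.1 h1
  obtain ⟨v, hv, hvb⟩ := SetLike.not_le_iff_exists.1 h2
  have hub : u ∈ Yb := hcon u hu hua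
  have hva : v ∈ Ya := by
    by_contra hc
    exact hvb (hcon v hv hc)
  have h3 : u + v ∉ Ya := fun h => hua (by simpa using Ya.sub_mem h hva)
  have h4 := hcon _ (Yc.add_mem hu hv) h3
  exact hvb (by simpa using Yb.sub_mem h4 hub)

open Classical in
/-- the nonzero elements of `Ya ∪ Yb` -/
noncomputable def P2 [Finite Q] (Ya Yb : AddSubgroup Q) : Finset Q :=
  (((Set.toFinite ((Ya : Set Q) ∪ Yb)).toFinset).erase 0)

lemma mem_P2 [Finite Q] {x : Q} : x ∈ P2 Ya Yb ↔ x ≠ 0 ∧ (x ∈ Ya ∨ x ∈ Yb) := by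
  classical
  unfold P2
  rw [Finset.mem_erase, Set.Finite.mem_toFinset]
  rfl

lemma card_P2 [Finite Q] : (P2 Ya Yb).card + 1 + Nat.card (Ya ⊓ Yb : AddSubgroup Q) =
    Nat.card Ya + Nat.card Yb := by
  classical
  unfold P2
  have h0 : (0 : Q) ∈ (Set.toFinite ((Ya : Set Q) ∪ Yb)).toFinset := by
    rw [Set.Finite.mem_toFinset]
    exact Or.inl Ya.zero_mem
  rw [Finset.card_erase_add_one h0, ← Set.ncard_eq_toFinset_card]
  exact Set.ncard_union_add_ncard_inter _ _ (Set.toFinite _) (Set.toFinite _)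

variable {N : Q → ℕ}

lemma sumlb (k : ℕ) (s : Finset Q) (h : ∀ q ∈ s, k ≤ N q) : k * s.card ≤ ∑ q ∈ s, N q := by
  have := Finset.card_nsmul_le_sum s N k h
  rw [smul_eq_mul, mul_comm] at this
  exact this

lemma sumlb1 (k : ℕ) (s : Finset Q) (h : ∀ q ∈ s, k ≤ N q) (h1 : ∃ q ∈ s, k + 1 ≤ N q) :
    k * s.card + 1 ≤ ∑ q ∈ s, N q := by
  classical
  obtain ⟨q, hq, h1⟩ := h1
  rw [← Finset.sum_erase_add s _ hq]
  have h2 := sumlb (N := N) k (s.erase q) (fun x hx => h x (Finset.mem_of_mem_erase hx))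
  have h3 := Finset.card_erase_add_one hq
  rw [← h3]
  nlinarith

lemma sumlb2 (k : ℕ) (s : Finset Q) (h : ∀ q ∈ s, k ≤ N q) {q r : Q} (hq : q ∈ s) (hr : r ∈ s)
    (hne : q ≠ r) (h1 : k + 1 ≤ N q) (h2 : k + 1 ≤ N r) :
    k * s.card + 2 ≤ ∑ q ∈ s, N q := by
  classical
  rw [← Finset.sum_erase_add s _ hq]
  have h4 := sumlb1 (N := N) k (s.erase q) (fun x hx => h x (Finset.mem_of_mem_erase hx))
    ⟨r, Finset.mem_erase.2 ⟨hne.symm, hr⟩, h2⟩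
  have h3 := Finset.card_erase_add_one hq
  rw [← h3]
  nlinarith

end

section
variable {Q : Type} [AddCommGroup Q] [Finite Q] {Ya Yb Yc : AddSubgroup Q} {t : Q} {N : Q → ℕ}
  {M : ℕ}

lemma Tri.nle' (h : Tri Ya Yb Yc t) : ¬ Yc ≤ Ya ∧ ¬ Yc ≤ Yb :=
  ⟨h.swap23.nle, h.swap12.swap23.nle⟩

/-- many points, at least six of them -/
lemma Tri.sixteen (h : Tri Ya Yb Yc t) (ha : 4 ≤ Nat.card Ya) (hb : 4 ≤ Nat.card Yb)
    (hN : ∀ q, q ≠ 0 → (q ∈ Ya ∨ q ∈ Yb ∨ q ∈ Yc) → 2 ≤ N q)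
    (hM : ∀ s : Finset Q, 0 ∉ s → 16 + ∑ q ∈ s, N q ≤ M) : 28 ≤ M := by
  classical
  obtain ⟨x, hx, hxa, hxb⟩ := outside h.nle'.1 h.nle'.2
  have hx0 : x ≠ 0 := by rintro rfl; exact hxa Ya.zero_mem
  have hxs : x ∉ P2 Ya Yb := fun hc => by
    rcases (mem_P2.1 hc).2 with h | h
    · exact hxa h
    · exact hxb h
  have h0 : (0 : Q) ∉ insert x (P2 Ya Yb) := by
    rw [Finset.mem_insert]
    rintro (h | h)
    · exact hx0 h.symm
    · exact (mem_P2.1 h).1 rfl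
  have h1 := hM _ h0
  rw [Finset.sum_insert hxs] at h1
  have h2 := sumlb (N := N) 2 (P2 Ya Yb) (fun q hq => by
    rcases (mem_P2.1 hq).2 with h | h
    · exact hN q (mem_P2.1 hq).1 (Or.inl h)
    · exact hN q (mem_P2.1 hq).1 (Or.inr (Or.inl h)))
  have h3 := hN x hx0 (Or.inr (Or.inr hx))
  have h4 := card_P2 (Ya := Ya) (Yb := Yb)
  have h5 := half Ya Yb h.nle
  rw [inf_comm] at h5
  have h6 := half Yb Ya h.swap12.nle
  omega

/-- one subgroup with eight elements -/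
lemma Tri.y3 (h : Tri Ya Yb Yc t) (ha : Nat.card Ya = 8)
    (hb : Nat.card Yb = 4 ∨ Nat.card Yb = 8)
    (hNa : ∀ q ∈ Ya, q ≠ 0 → 2 ≤ N q) (hNb : ∀ q ∈ Yb, q ≠ 0 → 2 ≤ N q)
    (hNb' : Nat.card Yb = 4 → ∀ q ∈ Yb, q ≠ 0 → 3 ≤ N q)
    (hM : ∀ s : Finset Q, 0 ∉ s → 8 + ∑ q ∈ s, N q ≤ M) : 28 ≤ M := by
  classical
  have h0 : (0 : Q) ∉ P2 Ya Yb := fun h => (mem_P2.1 h).1 rfl
  have h1 := hM _ h0
  have h4 := card_P2 (Ya := Ya) (Yb := Yb)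
  have h5 := half Ya Yb h.nle
  rw [inf_comm] at h5
  rcases hb with hb | hb
  · -- split
    have hsub : P2 Ya Ya ⊆ P2 Ya Yb := fun q hq => by
      obtain ⟨h1, h2⟩ := mem_P2.1 hq
      exact mem_P2.2 ⟨h1, Or.inl (h2.elim id id)⟩
    have e1 := Finset.sum_sdiff (f := N) hsub
    have e2 := Finset.card_sdiff_add_card_eq_card hsub
    have e3 := card_P2 (Ya := Ya) (Yb := Ya)
    rw [inf_idem] at e3
    have h6 := sumlb (N := N) 2 (P2 Ya Ya) (fun q hq => by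
      obtain ⟨h1, h2⟩ := mem_P2.1 hq
      exact hNa q (h2.elim id id) h1)
    have h7 := sumlb (N := N) 3 (P2 Ya Yb \ P2 Ya Ya) (fun q hq => by
      rw [Finset.mem_sdiff] at hq
      obtain ⟨h1, h2⟩ := mem_P2.1 hq.1
      rcases h2 with h2 | h2
      · exact absurd (mem_P2.2 ⟨h1, Or.inl h2⟩) hq.2
      · exact hNb' hb q h2 h1)
    omega
  · have h6 := sumlb (N := N) 2 (P2 Ya Yb) (fun q hq => by
      obtain ⟨h1, h2⟩ := mem_P2.1 hq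
      rcases h2 with h2 | h2
      · exact hNa q h2 h1
      · exact hNb q h2 h1)
    omega

lemma Tri.card_inf (h : Tri Ya Yb Yc t) (hQ : ∀ q : Q, q + q = 0) (ha : Nat.card Ya = 4) :
    Nat.card (Ya ⊓ Yb : AddSubgroup Q) = 1 ∨ Nat.card (Ya ⊓ Yb : AddSubgroup Q) = 2 := by
  have h6 := half Yb Ya h.swap12.nle
  have : 0 < Nat.card (Ya ⊓ Yb : AddSubgroup Q) := Nat.card_pos
  omega

/-- trivial intersection -/
lemma Tri.m1 (h : Tri Ya Yb Yc t) (ha : Nat.card Ya = 4) (hb : Nat.card Yb = 4)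
    (hi : Nat.card (Ya ⊓ Yb : AddSubgroup Q) = 1)
    (hN : ∀ q, q ≠ 0 → (q ∈ Ya ∨ q ∈ Yb ∨ q ∈ Yc) → 3 ≤ N q)
    (hM : ∀ s : Finset Q, 0 ∉ s → 8 + ∑ q ∈ s, N q ≤ M) : 28 ≤ M := by
  classical
  obtain ⟨x, hx, hxa, hxb⟩ := outside h.nle'.1 h.nle'.2
  have hx0 : x ≠ 0 := by rintro rfl; exact hxa Ya.zero_mem
  have hxs : x ∉ P2 Ya Yb := fun hc => by
    rcases (mem_P2.1 hc).2 with h | h
    · exact hxa h
    · exact hxb h
  have h0 : (0 : Q) ∉ insert x (P2 Ya Yb) := by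
    rw [Finset.mem_insert]
    rintro (h | h)
    · exact hx0 h.symm
    · exact (mem_P2.1 h).1 rfl
  have h1 := hM _ h0
  rw [Finset.sum_insert hxs] at h1
  have h2 := sumlb (N := N) 3 (P2 Ya Yb) (fun q hq => by
    rcases (mem_P2.1 hq).2 with h | h
    · exact hN q (mem_P2.1 hq).1 (Or.inl h)
    · exact hN q (mem_P2.1 hq).1 (Or.inr (Or.inl h)))
  have h3 := hN x hx0 (Or.inr (Or.inr hx))
  have h4 := card_P2 (Ya := Ya) (Yb := Yb)
  omega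

/-- intersection with two elements, third subgroup with large fibres -/
lemma Tri.m2 (h : Tri Ya Yb Yc t) (ha : Nat.card Ya = 4) (hb : Nat.card Yb = 4)
    (hi : Nat.card (Ya ⊓ Yb : AddSubgroup Q) = 2)
    (hN : ∀ q, q ≠ 0 → (q ∈ Ya ∨ q ∈ Yb) → 3 ≤ N q) (hNc : ∀ q, q ≠ 0 → q ∈ Yc → 4 ≤ N q)
    (hM : ∀ s : Finset Q, 0 ∉ s → 8 + ∑ q ∈ s, N q ≤ M)
    (hor : (∀ q, q ≠ 0 → q ∈ Yc → 5 ≤ N q) ∨ ∃ q, q ≠ 0 ∧ (q ∈ Ya ∨ q ∈ Yb) ∧ 4 ≤ N q) :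
    28 ≤ M := by
  classical
  obtain ⟨x, hx, hxa, hxb⟩ := outside h.nle'.1 h.nle'.2
  have hx0 : x ≠ 0 := by rintro rfl; exact hxa Ya.zero_mem
  have hxs : x ∉ P2 Ya Yb := fun hc => by
    rcases (mem_P2.1 hc).2 with h | h
    · exact hxa h
    · exact hxb h
  have h0 : (0 : Q) ∉ insert x (P2 Ya Yb) := by
    rw [Finset.mem_insert]
    rintro (h | h)
    · exact hx0 h.symm
    · exact (mem_P2.1 h).1 rfl
  have h1 := hM _ h0
  rw [Finset.sum_insert hxs] at h1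
  have hall : ∀ q ∈ P2 Ya Yb, 3 ≤ N q := fun q hq => hN q (mem_P2.1 hq).1 (mem_P2.1 hq).2
  have h3 := hNc x hx0 hx
  have h4 := card_P2 (Ya := Ya) (Yb := Yb)
  rcases hor with hor | ⟨q, hq0, hq, hq4⟩
  · have h2 := sumlb (N := N) 3 (P2 Ya Yb) hall
    have h5 := hor x hx0 hx
    omega
  · have h2 := sumlb1 (N := N) 3 (P2 Ya Yb) hall ⟨q, mem_P2.2 ⟨hq0, hq⟩, hq4⟩
    omega

/-- a common point of the three subgroups -/
lemma Tri.m4i (h : Tri Ya Yb Yc t) (ha : Nat.card Ya = 4) (hb : Nat.card Yb = 4)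
    (hc : Nat.card Yc = 4)
    (hi : Nat.card (Ya ⊓ Yb : AddSubgroup Q) = 2)
    (hN : ∀ q, q ≠ 0 → (q ∈ Ya ∨ q ∈ Yb ∨ q ∈ Yc) → 3 ≤ N q)
    (hM : ∀ s : Finset Q, 0 ∉ s → 8 + ∑ q ∈ s, N q ≤ M)
    {e : Q} (he0 : e ≠ 0) (hea : e ∈ Ya) (heb : e ∈ Yb) (hec : e ∈ Yc) : 28 ≤ M := by
  classical
  -- elements of `Yc` other than `0, e` are outside
  have hout : ∀ Y : AddSubgroup Q, ¬ Yc ≤ Y → e ∈ Y → ∀ x ∈ Yc, x ≠ 0 → x ≠ e → x ∉ Y := by
    intro Y hY heY x hx hx0 hxe hxY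
    have h6 := half Y Yc hY
    have h7 : ({0, e, x} : Set Q) ⊆ ((Yc ⊓ Y : AddSubgroup Q) : Set Q) := by
      rintro y (rfl | rfl | rfl)
      · exact zero_mem _
      · exact ⟨hec, heY⟩
      · exact ⟨hx, hxY⟩
    have h8 : ({0, e, x} : Set Q).ncard = 3 := by
      rw [Set.ncard_eq_three]
      exact ⟨0, e, x, fun h => he0 h.symm, fun h => hx0 h.symm, fun h => hxe h.symm, rfl⟩
    have h9 := Set.ncard_le_ncard h7 (Set.toFinite _)
    rw [h8] at h9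
    have h10 : ((Yc ⊓ Y : AddSubgroup Q) : Set Q).ncard = Nat.card (Yc ⊓ Y : AddSubgroup Q) := rfl
    omega
  have e3 := card_P2 (Ya := Yc) (Yb := Yc)
  rw [inf_idem] at e3
  have hemem : e ∈ P2 Yc Yc := mem_P2.2 ⟨he0, Or.inl hec⟩
  have e4 := Finset.card_erase_add_one hemem
  have hdis : Disjoint (P2 Ya Yb) ((P2 Yc Yc).erase e) := by
    rw [Finset.disjoint_right]
    intro x hx hx'
    rw [Finset.mem_erase] at hx
    obtain ⟨h1, h2⟩ := mem_P2.1 hx.2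
    rcases (mem_P2.1 hx').2 with h3 | h3
    · exact hout Ya h.nle'.1 hea x (h2.elim id id) h1 hx.1 h3
    · exact hout Yb h.nle'.2 heb x (h2.elim id id) h1 hx.1 h3
  have h0 : (0 : Q) ∉ P2 Ya Yb ∪ (P2 Yc Yc).erase e := by
    rw [Finset.mem_union, Finset.mem_erase]
    rintro (h | h)
    · exact (mem_P2.1 h).1 rfl
    · exact (mem_P2.1 h.2).1 rfl
  have h1 := hM _ h0
  have h2 := sumlb (N := N) 3 (P2 Ya Yb ∪ (P2 Yc Yc).erase e) (fun q hq => by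
    rw [Finset.mem_union, Finset.mem_erase] at hq
    rcases hq with hq | hq
    · rcases (mem_P2.1 hq).2 with h | h
      · exact hN q (mem_P2.1 hq).1 (Or.inl h)
      · exact hN q (mem_P2.1 hq).1 (Or.inr (Or.inl h))
    · exact hN q (mem_P2.1 hq.2).1 (Or.inr (Or.inr ((mem_P2.1 hq.2).2.elim id id))))
  rw [Finset.card_union_of_disjoint hdis] at h2
  have h4 := card_P2 (Ya := Ya) (Yb := Yb)
  omega

/-- two large fibres -/
lemma Tri.m4ii (h : Tri Ya Yb Yc t) (ha : Nat.card Ya = 4) (hb : Nat.card Yb = 4)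
    (hi : Nat.card (Ya ⊓ Yb : AddSubgroup Q) = 2)
    (hN : ∀ q, q ≠ 0 → (q ∈ Ya ∨ q ∈ Yb ∨ q ∈ Yc) → 3 ≤ N q)
    (hM : ∀ s : Finset Q, 0 ∉ s → 8 + ∑ q ∈ s, N q ≤ M)
    {q r : Q} (hq : q ∈ Ya ∨ q ∈ Yb ∨ q ∈ Yc) (hr : r ∈ Ya ∨ r ∈ Yb ∨ r ∈ Yc)
    (hq0 : q ≠ 0) (hr0 : r ≠ 0) (hne : q ≠ r) (hq4 : 4 ≤ N q) (hr4 : 4 ≤ N r) : 28 ≤ M := by
  classical
  obtain ⟨x, hx, hxa, hxb⟩ := outside h.nle'.1 h.nle'.2
  have hx0 : x ≠ 0 := by rintro rfl; exact hxa Ya.zero_mem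
  have hxs : x ∉ P2 Ya Yb := fun hc => by
    rcases (mem_P2.1 hc).2 with h | h
    · exact hxa h
    · exact hxb h
  let s : Finset Q := P2 Ya Yb ∪ P2 Yc Yc
  have hmem : ∀ y, y ∈ s ↔ y ≠ 0 ∧ (y ∈ Ya ∨ y ∈ Yb ∨ y ∈ Yc) := by
    intro y
    show y ∈ P2 Ya Yb ∪ P2 Yc Yc ↔ _
    rw [Finset.mem_union, mem_P2, mem_P2]
    tauto
  have h0 : (0 : Q) ∉ s := fun h => ((hmem 0).1 h).1 rfl
  have h1 := hM _ h0
  have h2 := sumlb2 (N := N) 3 s (fun y hy => hN y ((hmem y).1 hy).1 ((hmem y).1 hy).2)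
    ((hmem q).2 ⟨hq0, hq⟩) ((hmem r).2 ⟨hr0, hr⟩) hne hq4 hr4
  have h4 := card_P2 (Ya := Ya) (Yb := Yb)
  have h5 : insert x (P2 Ya Yb) ⊆ s := by
    intro y hy
    rw [Finset.mem_insert] at hy
    rcases hy with rfl | hy
    · exact (hmem _).2 ⟨hx0, Or.inr (Or.inr hx)⟩
    · exact Finset.mem_union_left _ hy
  have h6 := Finset.card_le_card h5
  rw [Finset.card_insert_of_notMem hxs] at h6
  omega

end

end Pool.Agent.N88.TS
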